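import Pool.Agent.H443.VD.St

/-!
# The abstract theorem with a bound for the dimension of the tangent space
-/

set_option autoImplicit false

namespace Pool.Agent.H443.VD
open MvPolynomial Module
open Pool.Agent.W254.PA (Hyp)
open Pool.Agent.Y787.AS

variable {K E : Type} [Field K] [Field E] [Algebra K E] {m N q : ℕ}

/-- the valid states -/
structure Val (D : Fin q → Derivation ℤ E E) (g : Fin q → K → K) (b : Fin m → Fin N → K)
    (y : Fin m → E) (d : ℕ) (T0 : Submodule K (Fin q → K)) (R : Submodule K (Fin m → K))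
    (T : Submodule K (Fin q → K)) (S : Submodule E (MvPolynomial (Fin m) E)) : Prop where
  le : T ≤ T0
  pres : ∀ δ ∈ T, ∀ c ∈ R, (fun i => gd g δ (c i)) ∈ R
  cols : ∀ δ ∈ T, ∀ j, (fun i => gd g δ (b i j)) ∈ R
  adm : Adm D y T S
  dim : finrank E (Tan y S R) ≤ d
  bound : finrank K T0 ≤ finrank K T + (d - finrank E (Tan y S R)) * (d + 1)

theorem adm_mono {D : Fin q → Derivation ℤ E E} {y : Fin m → E} {T T' : Submodule K (Fin q → K)}
    {S : Submodule E (MvPolynomial (Fin m) E)} (h : Adm D y T S) (hT : T' ≤ T) : Adm D y T' S :=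
  ⟨h.ev, fun δ hδ G hG => h.st δ (hT hδ) G hG⟩

/-- **The abstract theorem.** -/
theorem abs_main [CharZero E] {L : Submodule K E} (hL : Hyp L) (l : Fin N → E)
    (hl : ∀ j, l j ∈ L) (hli : LinearIndependent K l) (b : Fin m → Fin N → K)
    (D : Fin q → Derivation ℤ E E) (g : Fin q → K → K)
    (hg : ∀ k a, D k (algebraMap K E a) = algebraMap K E (g k a)) (hDl : ∀ k j, D k (l j) = 0)
    (T0 : Submodule K (Fin q → K)) (hinj : ∀ δ ∈ T0, (∀ i j, gd g δ (b i j) = 0) → δ = 0)
    (𝓕 : Set (MvPolynomial (Fin m) E))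
    (hF0 : ∀ F ∈ 𝓕, eval (fun i => ∑ j, algebraMap K E (b i j) * l j) F = 0)
    (hFD : ∀ δ ∈ T0, ∀ F ∈ 𝓕, coefD (Dd D δ) F = 0) (d : ℕ)
    (hd : ∀ Θ : Submodule E (Fin m → E), (∀ c ∈ Θ, ∀ F ∈ 𝓕,
      eval (fun i => ∑ j, algebraMap K E (b i j) * l j) (dirD c F) = 0) → finrank E Θ ≤ d) :
    ∃ R : Submodule K (Fin m → K), finrank K R ≤ d ∧
      finrank K T0 ≤ finrank K R * N + (d - finrank K R) * (d + 1) ∧
      ∀ F ∈ 𝓕, ∀ c ∈ RE E R,
        eval (fun i => ∑ j, algebraMap K E (b i j) * l j + c i) F = 0 := by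
  classical
  set y : Fin m → E := fun i => ∑ j, algebraMap K E (b i j) * l j with hy
  have hadm : ∀ T : Submodule K (Fin q → K), T ≤ T0 → Adm D y T (Submodule.span E 𝓕) := fun T hT =>
    adm_span D y T 𝓕 hF0 (fun δ hδ G hG => by
      rw [hFD δ (hT hδ) G hG]
      exact Submodule.zero_mem _)
  have hdim0 : finrank E (Tan y (Submodule.span E 𝓕) (⊤ : Submodule K (Fin m → K))) ≤ d := by
    refine hd _ fun c hc F hF => ?_
    rw [mem_Tan] at hc
    exact hc.2 F (Submodule.subset_span hF)
  have hex : ∃ n, ∃ (R : Submodule K (Fin m → K)) (T : Submodule K (Fin q → K))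
      (S : Submodule E (MvPolynomial (Fin m) E)),
      finrank E (Tan y S R) = n ∧ Val D g b y d T0 R T S := by
    -- the initial state, after one step
    obtain ⟨T', h1, h2, h3, h4⟩ := step D g hg l hDl b hL hl hli T0 ⊤
      (fun _ _ _ _ => Submodule.mem_top) (fun _ _ _ => Submodule.mem_top) (Submodule.span E 𝓕)
      (hadm T0 le_rfl) _ rfl
    set Θ := Tan y (Submodule.span E 𝓕) (⊤ : Submodule K (Fin m → K)) with hΘ
    obtain ⟨S', hS'1, -, hS'3⟩ := adm_next D g hg y T' (rat (K := K) Θ) h2 (Submodule.span E 𝓕)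
      (hadm T' h1) (by
        intro G hG c hc
        rw [mem_rat, hΘ, mem_Tan] at hc
        exact hc.2 G hG)
    have h5 := h4 S' hS'3
    have h6 : finrank E (Tan y S' (rat (K := K) Θ)) ≤ finrank K (rat (K := K) Θ) := by
      have : Tan y S' (rat (K := K) Θ) ≤ RE E (rat (K := K) Θ) := inf_le_left
      have h := Submodule.finrank_mono this
      rwa [finrank_RE] at h
    have h7 := finrank_rat_le (K := K) Θ
    refine ⟨_, rat (K := K) Θ, T', S', rfl, h1, h2, h3, hS'1, h6.trans (h7.trans hdim0), ?_⟩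
    change finrank K T0 ≤ finrank K T' + _ + (_ - finrank E (Tan y S' (rat (K := K) Θ))) at h5
    set θ := finrank E Θ
    set θ' := finrank E (Tan y S' (rat (K := K) Θ))
    set r' := finrank K (rat (K := K) Θ)
    obtain ⟨x, hx⟩ : ∃ x, r' = θ' + x := ⟨_, (Nat.add_sub_cancel' h6).symm⟩
    obtain ⟨z, hz⟩ : ∃ z, θ = r' + z := ⟨_, (Nat.add_sub_cancel' h7).symm⟩
    obtain ⟨w, hw⟩ : ∃ w, d = θ + w := ⟨_, (Nat.add_sub_cancel' hdim0).symm⟩
    have e1 : θ - r' = z := by omega
    have e2 : r' - θ' = x := by omega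
    have e3 : d - θ' = x + z + w := by omega
    rw [e1, e2] at h5
    rw [e3]
    have e4 : z * (θ + 1) ≤ z * (d + 1) := Nat.mul_le_mul_left _ (by omega)
    have e5 : x ≤ x * (d + 1) := Nat.le_mul_of_pos_right _ (by omega)
    have e6 : (x + z + w) * (d + 1) = x * (d + 1) + z * (d + 1) + w * (d + 1) := by ring
    omega
  obtain ⟨R, T, S, hRn, hV⟩ := Nat.find_spec hex
  have hmin := fun k (hk : k < Nat.find hex) => Nat.find_min hex hk
  rw [← hRn] at hmin
  -- one more step
  obtain ⟨T', h1, h2, h3, h4⟩ := step D g hg l hDl b hL hl hli T R hV.pres hV.cols S hV.adm _ rfl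
  set Θ := Tan y S R with hΘ
  obtain ⟨S', hS'1, -, hS'3⟩ := adm_next D g hg y T' (rat (K := K) Θ) h2 S
    (adm_mono hV.adm h1) (by
      intro G hG c hc
      rw [mem_rat, hΘ, mem_Tan] at hc
      exact hc.2 G hG)
  have h5 := h4 S' hS'3
  have h6 : ∀ S'' : Submodule E (MvPolynomial (Fin m) E),
      finrank E (Tan y S'' (rat (K := K) Θ)) ≤ finrank K (rat (K := K) Θ) := by
    intro S''
    have : Tan y S'' (rat (K := K) Θ) ≤ RE E (rat (K := K) Θ) := inf_le_left
    have h := Submodule.finrank_mono this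
    rwa [finrank_RE] at h
  have h7 := finrank_rat_le (K := K) Θ
  have hθd : finrank E Θ ≤ d := hV.dim
  have hbound' : finrank K T0 ≤ finrank K T' +
      (d - finrank E (Tan y S' (rat (K := K) Θ))) * (d + 1) := by
    have h8 := hV.bound
    have h6' := h6 S'
    change finrank K T0 ≤ finrank K T + (d - finrank E Θ) * (d + 1) at h8
    change finrank K T ≤ finrank K T' + _ + (_ - finrank E (Tan y S' (rat (K := K) Θ))) at h5
    set θ := finrank E Θ
    set θ' := finrank E (Tan y S' (rat (K := K) Θ))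
    set r' := finrank K (rat (K := K) Θ)
    obtain ⟨x, hx⟩ : ∃ x, r' = θ' + x := ⟨_, (Nat.add_sub_cancel' h6').symm⟩
    obtain ⟨z, hz⟩ : ∃ z, θ = r' + z := ⟨_, (Nat.add_sub_cancel' h7).symm⟩
    obtain ⟨w, hw⟩ : ∃ w, d = θ + w := ⟨_, (Nat.add_sub_cancel' hθd).symm⟩
    have e1 : θ - r' = z := by omega
    have e2 : r' - θ' = x := by omega
    have e3 : d - θ' = x + z + w := by omega
    have e0 : d - θ = w := by omega
    rw [e1, e2] at h5
    rw [e0] at h8
    rw [e3]
    have e4 : z * (θ + 1) ≤ z * (d + 1) := Nat.mul_le_mul_left _ (by omega)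
    have e5 : x ≤ x * (d + 1) := Nat.le_mul_of_pos_right _ (by omega)
    have e6 : (x + z + w) * (d + 1) = x * (d + 1) + z * (d + 1) + w * (d + 1) := by ring
    omega
  -- the tangent space does not become smaller
  have hge : ∀ S'' : Submodule E (MvPolynomial (Fin m) E), Adm D y T' S'' →
      finrank K T0 ≤ finrank K T' +
        (d - finrank E (Tan y S'' (rat (K := K) Θ))) * (d + 1) →
      finrank E Θ ≤ finrank E (Tan y S'' (rat (K := K) Θ)) := by
    intro S'' hS'' hb
    by_contra hlt
    push Not at hlt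
    exact hmin _ hlt ⟨rat (K := K) Θ, T', S'', rfl, h1.trans hV.le, h2, h3, hS'',
      (h6 S'').trans (h7.trans hθd), hb⟩
  have hθ' := hge S' hS'1 hbound'
  have hr : finrank K (rat (K := K) Θ) = finrank E Θ := by
    have := h6 S'
    omega
  have hθ'' : finrank E (Tan y S' (rat (K := K) Θ)) = finrank E Θ := by
    have := h6 S'
    omega
  have hbR : finrank K T0 ≤ finrank K T' + (d - finrank K (rat (K := K) Θ)) * (d + 1) := by
    rw [hθ''] at hbound'
    rw [hr]
    exact hbound'
  -- first derivatives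
  have hA : ∀ S'' : Submodule E (MvPolynomial (Fin m) E), Adm D y T' S'' → ∀ G ∈ S'',
      ∀ c ∈ rat (K := K) Θ, eval y (dirD (fun i => algebraMap K E (c i)) G) = 0 := by
    intro S'' hS'' G hG c hc
    have e1 := h6 S''
    have e2 := hge S'' hS'' (hbR.trans (Nat.add_le_add_left (Nat.mul_le_mul_right _ (by omega)) _))
    have e3 : Tan y S'' (rat (K := K) Θ) = RE E (rat (K := K) Θ) := by
      refine Submodule.eq_of_le_of_finrank_le inf_le_left ?_
      rw [finrank_RE]
      omega
    have e4 : co E c ∈ Tan y S'' (rat (K := K) Θ) := by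
      rw [e3]
      exact co_mem_RE hc
    exact (mem_Tan.1 e4).2 G hG
  -- higher derivatives
  have hB : ∀ (k : ℕ) (S : Submodule E (MvPolynomial (Fin m) E)), Adm D y T' S → ∀ F ∈ S,
      ∀ c ∈ RE E (rat (K := K) Θ), eval y ((dirD c)^[k] F) = 0 := by
    intro k
    induction k with
    | zero => intro S hS F hF c _; exact hS.ev F hF
    | succ k ih =>
      intro S hS F hF c hc
      rw [Function.iterate_succ_apply]
      obtain ⟨S', hS', _, h1⟩ := adm_next D g hg y T' (rat (K := K) Θ) h2 S hS (hA S hS)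
      refine ih S' hS' _ ?_ c hc
      induction hc using Submodule.span_induction with
      | mem x hx =>
        obtain ⟨c', hc', rfl⟩ := hx
        exact h1 F hF c' hc'
      | zero => rw [dirD_zero_left]; exact S'.zero_mem
      | add x z _ _ hx hz => rw [dirD_add_left]; exact S'.add_mem hx hz
      | smul t x _ hx => rw [dirD_smul_left, ← smul_eq_C_mul]; exact S'.smul_mem t hx
  refine ⟨rat (K := K) Θ, by omega, ?_, ?_⟩
  · have h8 : finrank K T' ≤ finrank K (rat (K := K) Θ) * N := by
      have hfree : Module.Free K (rat (K := K) Θ) := Module.Free.of_divisionRing K _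
      let Ψ : T' →ₗ[K] (Fin N → rat (K := K) Θ) :=
        { toFun := fun δ j => ⟨fun i => gd g δ (b i j), h3 δ δ.2 j⟩
          map_add' := fun δ δ' => by
            funext j
            apply Subtype.ext
            funext i
            exact gd_add g δ δ' _
          map_smul' := fun p δ => by
            funext j
            apply Subtype.ext
            funext i
            exact gd_smul g p δ _ }
      have h9 : Function.Injective Ψ := by
        rw [injective_iff_map_eq_zero]
        intro δ hδ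
        apply Subtype.ext
        refine hinj δ (hV.le (h1 δ.2)) fun i j => ?_
        have h3 := congrArg (fun x : rat (K := K) Θ => (x : Fin m → K) i) (congrFun hδ j)
        exact h3
      have h10 := LinearMap.finrank_le_finrank_of_injective h9
      rw [Module.finrank_pi_fintype] at h10
      simp only [Finset.sum_const, Finset.card_univ, Fintype.card_fin, smul_eq_mul] at h10
      rwa [mul_comm] at h10
    exact hbR.trans (Nat.add_le_add_right h8 _)
  · intro F hF c hc
    have h8 := eval_line y c F (fun k => hB k _ (hadm T' (h1.trans hV.le)) F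
      (Submodule.subset_span hF) c hc) 1
    simp only [one_mul] at h8
    exact h8

end Pool.Agent.H443.VD
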