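import Mathlib

/-!
# Uniform bounds for the number of points in boxes
-/

set_option autoImplicit false

namespace Pool.Agent.H443.VD
open MvPolynomial Finset

variable {K : Type} [Field K]

/-- any `n + 1` coordinates satisfy a relation of degree at most `B` on `Y` -/
def Rels (M n B : ℕ) (Y : Set (Fin M → K)) : Prop :=
  ∀ e : Fin (n + 1) ↪ Fin M, ∃ P : MvPolynomial (Fin (n + 1)) K, P ≠ 0 ∧ P.totalDegree ≤ B ∧
    ∀ x ∈ Y, eval (fun a => x (e a)) P = 0

/-- the last coordinates -/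
theorem Rels.tail {M n B : ℕ} {Y : Set (Fin (M + 1) → K)} (h : Rels (M + 1) n B Y) :
    Rels M n B {y | ∃ x ∈ Y, Fin.tail x = y} := by
  intro e
  obtain ⟨P, h1, h2, h3⟩ := h (e.trans (Fin.succEmb M))
  refine ⟨P, h1, h2, ?_⟩
  rintro y ⟨x, hx, rfl⟩
  exact h3 x hx

/-- the embedding with the first coordinate -/
def consEmb {n M : ℕ} (T : Fin n ↪ Fin M) : Fin (n + 1) ↪ Fin (M + 1) where
  toFun := Fin.cons 0 (fun a => (T a).succ)
  inj' := by
    rw [Fin.cons_injective_iff]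
    refine ⟨?_, fun a b hab => T.injective (Fin.succ_injective _ hab)⟩
    rintro ⟨a, ha⟩
    exact absurd ha (Fin.succ_ne_zero _)

theorem split_first {n M : ℕ} (B : ℕ) (Y : Set (Fin (M + 1) → K)) (T : Fin n ↪ Fin M)
    (h : ∃ P : MvPolynomial (Fin (n + 1)) K, P ≠ 0 ∧ P.totalDegree ≤ B ∧
      ∀ x ∈ Y, eval (fun a => x (consEmb T a)) P = 0) :
    ∃ Q : MvPolynomial (Fin n) K, Q ≠ 0 ∧ Q.totalDegree ≤ B ∧ ∀ y : Fin M → K,
      eval (fun a => y (T a)) Q ≠ 0 → ∃ p : Polynomial K, p ≠ 0 ∧ p.natDegree ≤ B ∧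
        ∀ x ∈ Y, Fin.tail x = y → p.IsRoot (x 0) := by
  obtain ⟨P, hP0, hPB, hP⟩ := h
  set f := finSuccEquiv K n P with hf
  have hf0 : f ≠ 0 := by
    rw [hf, Ne, EmbeddingLike.map_eq_zero_iff]
    exact hP0
  refine ⟨f.leadingCoeff, Polynomial.leadingCoeff_ne_zero.2 hf0, ?_, fun y hy => ?_⟩
  · have h1 := totalDegree_coeff_finSuccEquiv_add_le P f.natDegree (by
      have := Polynomial.leadingCoeff_ne_zero.2 hf0
      exact this)
    have h2 : totalDegree (f.leadingCoeff) + f.natDegree ≤ totalDegree P := h1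
    omega
  · refine ⟨f.map (eval (fun a => y (T a))), ?_, ?_, ?_⟩
    · intro h0
      apply hy
      have h1 := congrArg (fun q => Polynomial.coeff q f.natDegree) h0
      simp only [Polynomial.coeff_map, Polynomial.coeff_zero] at h1
      exact h1
    · refine Polynomial.natDegree_map_le.trans ?_
      rw [hf, natDegree_finSuccEquiv]
      exact (degreeOf_le_totalDegree P 0).trans hPB
    · rintro x hx rfl
      rw [Polynomial.IsRoot.def, hf, ← eval_eq_eval_mv_eval', ← hP x hx]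
      congr 2
      funext a
      refine Fin.cases ?_ (fun a => ?_) a
      · rfl
      · rfl

open Classical in
theorem count_step {M n B κ₁ : ℕ} (κ₂ : ℕ) (Y : Set (Fin (M + 1) → K)) (A : Finset K)
    (F : Finset (Fin (M + 1) → K)) (hF : ∀ x ∈ F, x ∈ Y ∧ ∀ i, x i ∈ A)
    (Q : (Fin n ↪ Fin M) → MvPolynomial (Fin n) K)
    (hQ : ∀ T, ∀ y : Fin M → K,
      eval (fun a => y (T a)) (Q T) ≠ 0 → ∃ p : Polynomial K, p ≠ 0 ∧ p.natDegree ≤ B ∧
        ∀ x ∈ Y, Fin.tail x = y → p.IsRoot (x 0))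
    (h1 : (F.image Fin.tail).card ≤ κ₁)
    (h2 : ((F.image Fin.tail).filter fun y => ∀ T, eval (fun a => y (T a)) (Q T) = 0).card ≤ κ₂) :
    F.card ≤ B * κ₁ + κ₂ * A.card := by
  have h3 : F.card = ∑ y ∈ F.image Fin.tail, (F.filter fun x => Fin.tail x = y).card :=
    Finset.card_eq_sum_card_fiberwise (fun x hx => Finset.mem_coe.2 (Finset.mem_image_of_mem _ hx))
  have hfib : ∀ y, (F.filter fun x => Fin.tail x = y).card ≤ A.card := by
    intro y
    apply Finset.card_le_card_of_injOn (fun x => x 0)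
    · intro x hx
      exact (hF x (Finset.mem_filter.1 (Finset.mem_coe.1 hx)).1).2 0
    · intro x hx x' hx' h
      have e1 := (Finset.mem_filter.1 (Finset.mem_coe.1 hx)).2
      have e2 := (Finset.mem_filter.1 (Finset.mem_coe.1 hx')).2
      rw [← Fin.cons_self_tail x, ← Fin.cons_self_tail x', e1, e2]
      have h' : x 0 = x' 0 := h
      rw [h']
  have hgood : ∀ y, (¬ ∀ T, eval (fun a => y (T a)) (Q T) = 0) →
      (F.filter fun x => Fin.tail x = y).card ≤ B := by
    intro y hy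
    push Not at hy
    obtain ⟨T, hT⟩ := hy
    obtain ⟨p, hp0, hpd, hp⟩ := hQ T y hT
    refine le_trans ?_ ((Polynomial.card_roots' p).trans hpd)
    refine le_trans ?_ (Multiset.toFinset_card_le _)
    apply Finset.card_le_card_of_injOn (fun x => x 0)
    · intro x hx
      have e1 := Finset.mem_filter.1 (Finset.mem_coe.1 hx)
      rw [Finset.mem_coe, Multiset.mem_toFinset, Polynomial.mem_roots hp0]
      exact hp x (hF x e1.1).1 e1.2
    · intro x hx x' hx' h
      have e1 := (Finset.mem_filter.1 (Finset.mem_coe.1 hx)).2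
      have e2 := (Finset.mem_filter.1 (Finset.mem_coe.1 hx')).2
      rw [← Fin.cons_self_tail x, ← Fin.cons_self_tail x', e1, e2]
      have h' : x 0 = x' 0 := h
      rw [h']
  rw [h3, ← Finset.sum_filter_add_sum_filter_not (F.image Fin.tail)
    (fun y => ∀ T, eval (fun a => y (T a)) (Q T) = 0), add_comm]
  apply Nat.add_le_add
  · refine (Finset.sum_le_card_nsmul _ _ B fun y hy =>
      hgood y (Finset.mem_filter.1 hy).2).trans ?_
    rw [smul_eq_mul, mul_comm]
    exact Nat.mul_le_mul_left _ ((Finset.card_filter_le _ _).trans h1)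
  · refine (Finset.sum_le_card_nsmul _ _ A.card fun y _ => hfib y).trans ?_
    rw [smul_eq_mul]
    exact Nat.mul_le_mul_right _ h2

/-- **Uniform counting.** -/
theorem count_unif (K : Type) [Field K] : ∀ M n B : ℕ, ∃ κ : ℕ, ∀ Y : Set (Fin M → K),
    Rels M n B Y → ∀ A : Finset K, A.Nonempty → ∀ F : Finset (Fin M → K),
    (∀ x ∈ F, x ∈ Y ∧ ∀ i, x i ∈ A) → F.card ≤ κ * A.card ^ n := by
  classical
  intro M
  induction M with
  | zero =>
    intro n B
    refine ⟨1, fun Y _ A hA F _ => ?_⟩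
    have h1 : F.card ≤ 1 := by
      rw [Finset.card_le_one]
      intro a _ b _
      exact Subsingleton.elim a b
    rw [one_mul]
    exact h1.trans (Nat.one_le_pow _ _ hA.card_pos)
  | succ M ih =>
    intro n B
    have key : ∀ (Y : Set (Fin (M + 1) → K)), Rels (M + 1) n B Y →
        ∃ Q : (Fin n ↪ Fin M) → MvPolynomial (Fin n) K, (∀ T, Q T ≠ 0 ∧ (Q T).totalDegree ≤ B) ∧
          ∀ T, ∀ y : Fin M → K,
          eval (fun a => y (T a)) (Q T) ≠ 0 → ∃ p : Polynomial K, p ≠ 0 ∧ p.natDegree ≤ B ∧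
            ∀ x ∈ Y, Fin.tail x = y → p.IsRoot (x 0) := by
      intro Y hY
      choose Q h1 h2 h3 using fun T => split_first B Y T (hY (consEmb T))
      exact ⟨Q, fun T => ⟨h1 T, h2 T⟩, h3⟩
    obtain ⟨κ₁, hκ₁⟩ := ih n B
    have htail : ∀ (Y : Set (Fin (M + 1) → K)) (A : Finset K) (F : Finset (Fin (M + 1) → K)),
        (∀ x ∈ F, x ∈ Y ∧ ∀ i, x i ∈ A) → ∀ y ∈ F.image Fin.tail,
          y ∈ {y | ∃ x ∈ Y, Fin.tail x = y} ∧ ∀ i, y i ∈ A := by
      intro Y A F hF y hy
      obtain ⟨x, hx, rfl⟩ := Finset.mem_image.1 hy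
      exact ⟨⟨x, (hF x hx).1, rfl⟩, fun i => (hF x hx).2 i.succ⟩
    rcases n with _ | n
    · refine ⟨B * κ₁, fun Y hY A hA F hF => ?_⟩
      obtain ⟨Q, hQ1, hQ2⟩ := key Y hY
      have h1 := hκ₁ _ hY.tail A hA (F.image Fin.tail) (htail Y A F hF)
      have h2 := count_step (κ₁ := κ₁) 0 Y A F hF Q hQ2 (by simpa using h1) (by
        rw [Nat.le_zero, Finset.card_eq_zero, Finset.filter_eq_empty_iff]
        intro y _ hy
        have h3 := hy ⟨fun a : Fin 0 => a.elim0, fun a => a.elim0⟩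
        have h4 := (hQ1 ⟨fun a : Fin 0 => a.elim0, fun a => a.elim0⟩).1
        apply h4
        rw [MvPolynomial.eq_C_of_isEmpty (Q _)] at h3 ⊢
        rw [eval_C] at h3
        rw [h3, C_0])
      simpa using h2
    · obtain ⟨κ₂, hκ₂⟩ := ih n B
      refine ⟨B * κ₁ + κ₂, fun Y hY A hA F hF => ?_⟩
      obtain ⟨Q, hQ1, hQ2⟩ := key Y hY
      have h1 := hκ₁ _ hY.tail A hA (F.image Fin.tail) (htail Y A F hF)
      have h2 := count_step (κ₁ := κ₁ * A.card ^ (n + 1)) (κ₂ * A.card ^ n) Y A F hF Q hQ2 h1 (by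
        refine hκ₂ {y | ∀ T, eval (fun a => y (T a)) (Q T) = 0} ?_ A hA _ ?_
        · intro T
          exact ⟨Q T, (hQ1 T).1, (hQ1 T).2, fun x hx => hx T⟩
        · intro y hy
          obtain ⟨hy1, hy2⟩ := Finset.mem_filter.1 hy
          exact ⟨hy2, (htail Y A F hF y hy1).2⟩)
      refine h2.trans (le_of_eq ?_)
      ring

/-- the same for arbitrary finite index types -/
theorem count_unif' (K : Type) [Field K] (σ : Type) [Fintype σ] (n B : ℕ) : ∃ κ : ℕ,
    ∀ Y : Set (σ → K), (∀ e : Fin (n + 1) → σ, ∃ P : MvPolynomial (Fin (n + 1)) K, P ≠ 0 ∧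
      P.totalDegree ≤ B ∧ ∀ x ∈ Y, eval (fun a => x (e a)) P = 0) →
    ∀ A : Finset K, A.Nonempty → ∀ F : Finset (σ → K),
    (∀ x ∈ F, x ∈ Y ∧ ∀ i, x i ∈ A) → F.card ≤ κ * A.card ^ n := by
  classical
  obtain ⟨κ, hκ⟩ := count_unif K (Fintype.card σ) n B
  refine ⟨κ, fun Y hY A hA F hF => ?_⟩
  let ε := Fintype.equivFin σ
  have hinj : Function.Injective (fun (x : σ → K) (i : Fin (Fintype.card σ)) => x (ε.symm i)) := by
    intro x y h
    funext s
    have := congrFun h (ε s)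
    simpa using this
  rw [← Finset.card_image_of_injective F hinj]
  refine hκ {z | (fun s => z (ε s)) ∈ Y} ?_ A hA _ ?_
  · intro e
    obtain ⟨P, h1, h2, h3⟩ := hY (fun a => ε.symm (e a))
    refine ⟨P, h1, h2, fun x hx => ?_⟩
    have := h3 _ hx
    simpa using this
  · intro z hz
    obtain ⟨x, hx, rfl⟩ := Finset.mem_image.1 hz
    refine ⟨?_, fun i => (hF x hx).2 _⟩
    have h1 : (fun s => x (ε.symm (ε s))) = x := by
      funext s
      rw [Equiv.symm_apply_apply]
    change (fun s => x (ε.symm (ε s))) ∈ Y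
    rw [h1]
    exact (hF x hx).1

end Pool.Agent.H443.VD
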