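import Pool.Agent.H443.VD.Fu
import Pool.Graph.R_seed8.H297R2.ExpIndep

/-!
# Fibres over algebraically independent points
-/

set_option autoImplicit false

namespace Pool.Agent.H443.VD
open MvPolynomial
open Pool.Agent.H301R2.SSE (QB mem_QB)
open Pool.Agent.H297R2 (NoRel)

/-- substitution of the first group of variables -/
noncomputable def subst {K E : Type} [Field K] [Field E] [Algebra K E] {σ τ : Type} (x : σ → E) :
    MvPolynomial (σ ⊕ τ) K →ₐ[K] MvPolynomial τ E :=
  aeval (Sum.elim (fun i => C (x i)) X)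

section

variable {K E : Type} [Field K] [Field E] [Algebra K E] {σ τ : Type}

theorem eval_subst (x : σ → E) (y : τ → E) (P : MvPolynomial (σ ⊕ τ) K) :
    eval y (subst x P) = aeval (Sum.elim x y) P := by
  have h : (eval y).comp (subst x : MvPolynomial (σ ⊕ τ) K →ₐ[K] MvPolynomial τ E).toRingHom =
      (aeval (Sum.elim x y) : MvPolynomial (σ ⊕ τ) K →ₐ[K] E).toRingHom := by
    apply MvPolynomial.ringHom_ext
    · intro r
      simp [subst, MvPolynomial.algebraMap_eq, IsScalarTower.algebraMap_apply K E (MvPolynomial τ E)]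
    · rintro (i | i)
      · simp [subst]
      · simp [subst]
  exact RingHom.congr_fun h P

theorem deg_subst (x : σ → E) (P : MvPolynomial (σ ⊕ τ) K) :
    (subst x P).totalDegree ≤ P.totalDegree := by
  classical
  rw [subst, aeval_def, eval₂_eq]
  apply totalDegree_finsetSum_le
  intro s hs
  refine (totalDegree_mul _ _).trans ?_
  have h1 : (algebraMap K (MvPolynomial τ E) (coeff s P)).totalDegree = 0 := by
    rw [IsScalarTower.algebraMap_apply K E (MvPolynomial τ E)]
    exact totalDegree_C _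
  rw [h1, zero_add]
  refine (totalDegree_finsetProd _ _).trans ?_
  refine le_trans ?_ (le_totalDegree hs)
  rw [Finsupp.sum]
  apply Finset.sum_le_sum
  intro i _
  refine (totalDegree_pow _ _).trans ?_
  refine (Nat.mul_le_mul_left _ (?_ : _ ≤ 1)).trans (le_of_eq (mul_one _))
  rcases i with i | i
  · simp only [Sum.elim_inl, totalDegree_C]
    exact Nat.zero_le _
  · simp only [Sum.elim_inr]
    exact (totalDegree_X _).le

theorem subst_injective (x : σ → E)
    (hx : Function.Injective (aeval x : MvPolynomial σ K →ₐ[K] E)) :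
    Function.Injective (subst x : MvPolynomial (σ ⊕ τ) K →ₐ[K] MvPolynomial τ E) := by
  have h : (subst x : MvPolynomial (σ ⊕ τ) K →ₐ[K] MvPolynomial τ E) =
      ((mapAlgHom (aeval x : MvPolynomial σ K →ₐ[K] E)).comp
        ((sumAlgEquiv K τ σ).toAlgHom)).comp (rename Sum.swap) := by
    apply MvPolynomial.algHom_ext
    rintro (i | i)
    · simp [subst]
    · simp [subst]
  rw [h]
  refine (Function.Injective.comp (g := fun z => (mapAlgHom (aeval x : MvPolynomial σ K →ₐ[K] E)) z)
    ?_ (sumAlgEquiv K τ σ).injective).comp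
    (rename_injective _ Sum.swap_leftInverse.injective)
  intro a b hab
  exact map_injective (aeval x : MvPolynomial σ K →ₐ[K] E).toRingHom hx hab

end

/-- **Lindemann and Weierstrass.** -/
theorem lw {r : ℕ} (α : Fin r → ℂ) (halg : ∀ i, IsAlgebraic ℚ (α i)) (hα : LinearIndependent ℚ α) :
    Function.Injective (aeval (fun i => Complex.exp (α i)) : MvPolynomial (Fin r) QB →ₐ[QB] ℂ) := by
  rw [injective_iff_map_eq_zero]
  intro P hP
  exact Pool.Agent.H297R2.exp_noRel P.totalDegree α halg hα P le_rfl hP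

/-- the fibre over an algebraically independent point -/
theorem isVar_fibre {K E : Type} [Field K] [Field E] [Algebra K E] {r m d δ : ℕ} (x : Fin r → E)
    (hx : Function.Injective (aeval x : MvPolynomial (Fin r) K →ₐ[K] E))
    (𝓕 : Set (MvPolynomial (Fin r ⊕ Fin m) K)) (h𝓕 : ∀ F ∈ 𝓕, F.totalDegree ≤ δ)
    (hd : ∀ e : Fin (d + 1) → Fin m, ∃ P : MvPolynomial (Fin r ⊕ Fin (d + 1)) K, P ≠ 0 ∧
      P.totalDegree ≤ δ ∧ ∀ y : Fin m → E, (∀ F ∈ 𝓕, aeval (Sum.elim x y) F = 0) →
        aeval (Sum.elim x (fun a => y (e a))) P = 0) :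
    IsVar d δ {y : Fin m → E | ∀ F ∈ 𝓕, aeval (Sum.elim x y) F = 0} := by
  refine ⟨⟨(fun F => subst x F) '' 𝓕, ?_, ?_⟩, ?_⟩
  · rintro _ ⟨F, hF, rfl⟩
    exact (deg_subst x F).trans (h𝓕 F hF)
  · ext y
    simp only [Set.mem_ofPred_eq, Set.forall_mem_image, eval_subst]
  · intro e
    obtain ⟨P, hP0, hPd, hP⟩ := hd e
    refine ⟨subst x P, ?_, (deg_subst x P).trans hPd, fun y hy => ?_⟩
    · intro h
      exact hP0 (subst_injective x hx (h.trans (map_zero _).symm))
    · rw [eval_subst]
      exact hP y hy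

end Pool.Agent.H443.VD
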