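import Pool.Agent.H443.VD.Ab

/-!
# The dimension of the tangent space at a generic point
-/

set_option autoImplicit false

namespace Pool.Agent.H443.VD
open MvPolynomial Module
open Pool.Agent.Y787.AS

theorem deg_pderiv {σ R : Type} [CommRing R] (P : MvPolynomial σ R) (i : σ)
    (h : pderiv i P ≠ 0) : (pderiv i P).totalDegree < P.totalDegree := by
  classical
  obtain ⟨s, hs, hs'⟩ : ∃ s ∈ (pderiv i P).support, (pderiv i P).totalDegree = s.sum fun _ e => e := by
    have hne : (pderiv i P).support.Nonempty := by
      rw [Finset.nonempty_iff_ne_empty]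
      intro h'
      exact h (MvPolynomial.support_eq_empty.1 h')
    obtain ⟨s, hs, hs'⟩ := Finset.exists_mem_eq_sup _ hne (fun s : σ →₀ ℕ => s.sum fun _ e => e)
    exact ⟨s, hs, hs'⟩
  rw [hs']
  have h1 : s + Finsupp.single i 1 ∈ P.support := by
    rw [MvPolynomial.mem_support_iff] at hs ⊢
    rw [coeff_pderiv] at hs
    exact left_ne_zero_of_mul hs
  have h2 := le_totalDegree h1
  rw [Finsupp.sum_add_index' (fun _ => rfl) (fun _ _ _ => rfl), Finsupp.sum_single_index rfl] at h2
  omega

theorem const_of_pderiv {σ R : Type} [Field R] [CharZero R] (P : MvPolynomial σ R)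
    (h : ∀ i, pderiv i P = 0) : P = C (coeff 0 P) := by
  classical
  ext s
  rw [coeff_C]
  split_ifs with h0
  · rw [h0]
  · obtain ⟨i, hi⟩ : ∃ i, s i ≠ 0 := by
      by_contra hcon
      push Not at hcon
      exact h0 (Finsupp.ext fun i => (hcon i).symm)
    have h1 := congrArg (coeff (s - Finsupp.single i 1)) (h i)
    have h2 : s - Finsupp.single i 1 + Finsupp.single i 1 = s := by
      ext j
      rw [Finsupp.add_apply, Finsupp.tsub_apply, Finsupp.single_apply]
      split_ifs with hij
      · subst hij
        omega
      · omega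
    rw [coeff_pderiv, h2, coeff_zero] at h1
    exact (mul_eq_zero.1 h1).resolve_right (Nat.cast_add_one_ne_zero _)

/-- coordinates which are independent on a subspace -/
theorem exists_coords {E : Type} [Field E] {m d : ℕ} (Θ : Submodule E (Fin m → E))
    (h : d ≤ finrank E Θ) : ∃ e : Fin d → Fin m, ∀ x : Fin d → E, ∃ c ∈ Θ, ∀ k, c (e k) = x k := by
  classical
  let π : Fin m → Module.Dual E Θ := fun i => (LinearMap.proj i) ∘ₗ Θ.subtype
  have hspan : Submodule.span E (Set.range π) = ⊤ := by
    by_contra hcon
    obtain ⟨φ, hφ0, hφ⟩ := Submodule.exists_le_ker_of_lt_top _ (lt_top_iff_ne_top.2 hcon)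
    obtain ⟨z, hz⟩ := (Module.evalEquiv E Θ).surjective φ
    apply hφ0
    rw [← hz]
    have : z = 0 := by
      apply Subtype.ext
      funext i
      have h1 : π i ∈ LinearMap.ker φ := hφ (Submodule.subset_span ⟨i, rfl⟩)
      rw [LinearMap.mem_ker, ← hz] at h1
      exact h1
    rw [this, map_zero]
  obtain ⟨f, hf1, -, hf3⟩ := Submodule.exists_fun_fin_finrank_span_eq E (Set.range π)
  have hn : finrank E (Submodule.span E (Set.range π)) = finrank E Θ := by
    rw [hspan, finrank_top]
    exact Subspace.dual_finrank_eq
  choose e0 he0 using hf1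
  have hd : d ≤ finrank E (Submodule.span E (Set.range π)) := by rw [hn]; exact h
  refine ⟨fun k => e0 (Fin.castLE hd k), fun x => ?_⟩
  let Φ : Θ →ₗ[E] (Fin d → E) := LinearMap.pi fun k => f (Fin.castLE hd k)
  have hΦ : LinearMap.range Φ = ⊤ := by
    by_contra hcon
    obtain ⟨φ, hφ0, hφ⟩ := Submodule.exists_le_ker_of_lt_top _ (lt_top_iff_ne_top.2 hcon)
    apply hφ0
    have h1 : ∑ k, φ (Pi.single k 1) • f (Fin.castLE hd k) = 0 := by
      ext z
      have h2 : Φ z ∈ LinearMap.ker φ := hφ (LinearMap.mem_range_self Φ z)
      rw [LinearMap.mem_ker] at h2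
      rw [LinearMap.zero_apply, ← h2, LinearMap.sum_apply]
      have h3 : Φ z = ∑ k, Φ z k • (Pi.single k 1 : Fin d → E) := by
        funext j
        rw [Finset.sum_apply, Finset.sum_eq_single j]
        · simp
        · intro i _ hi
          simp [Ne.symm hi]
        · intro h; exact absurd (Finset.mem_univ _) h
      rw [h3, map_sum]
      refine Finset.sum_congr rfl fun k _ => ?_
      rw [map_smul, LinearMap.smul_apply, smul_eq_mul, smul_eq_mul, mul_comm]
      rfl
    have h4 := (Fintype.linearIndependent_iff.1 (hf3.comp _ (Fin.castLE_injective hd))) _ h1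
    apply LinearMap.pi_ext'
    intro k
    ext
    exact h4 k
  obtain ⟨z, hz⟩ := LinearMap.range_eq_top.1 hΦ x
  refine ⟨z, z.2, fun k => ?_⟩
  have h1 := congrFun hz k
  rw [← h1]
  change _ = f (Fin.castLE hd k) z
  rw [← he0]
  rfl

/-- **The tangent space at a generic point.** -/
theorem tangent {C E : Type} [Field C] [CharZero C] [Field E] (κ : C →+* E) {m d : ℕ}
    (y : Fin m → E)
    (hy : ∀ e : Fin (d + 1) → Fin m, ∃ P : MvPolynomial (Fin (d + 1)) C, P ≠ 0 ∧
      eval (fun k => y (e k)) (MvPolynomial.map κ P) = 0)
    (Θ : Submodule E (Fin m → E))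
    (hΘ : ∀ c ∈ Θ, ∀ G : MvPolynomial (Fin m) C, eval y (MvPolynomial.map κ G) = 0 →
      eval y (dirD c (MvPolynomial.map κ G)) = 0) : finrank E Θ ≤ d := by
  classical
  by_contra hcon
  push Not at hcon
  obtain ⟨e, he⟩ := exists_coords Θ hcon
  have hex : ∃ n, ∃ P : MvPolynomial (Fin (d + 1)) C, P ≠ 0 ∧
      eval (fun k => y (e k)) (MvPolynomial.map κ P) = 0 ∧ P.totalDegree = n := by
    obtain ⟨P, h1, h2⟩ := hy e
    exact ⟨_, P, h1, h2, rfl⟩
  obtain ⟨P, hP0, hP, hPn⟩ := Nat.find_spec hex
  have hmin := fun k (hk : k < Nat.find hex) => Nat.find_min hex hk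
  rw [← hPn] at hmin
  -- all partial derivatives vanish at the point
  have hder : ∀ k, eval (fun k => y (e k)) (MvPolynomial.map κ (pderiv k P)) = 0 := by
    intro k
    obtain ⟨c, hc, hc'⟩ := he (Pi.single k 1)
    have h1 := hΘ c hc (rename e P) (by
      rw [map_rename, eval_rename]
      exact hP)
    rw [eval_dirD] at h1
    -- the chain rule for the renamed polynomial
    have h2 : ∀ Q : MvPolynomial (Fin (d + 1)) C,
        ∑ i, c i * eval y (pderiv i (MvPolynomial.map κ (rename e Q))) =
        ∑ k, c (e k) * eval (fun k => y (e k)) (MvPolynomial.map κ (pderiv k Q)) := by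
      intro Q
      induction Q using MvPolynomial.induction_on with
      | C a =>
        simp
      | add p q hp hq =>
        simp only [map_add, mul_add, Finset.sum_add_distrib, hp, hq]
      | mul_X p n hp =>
        have e1 : ∀ i, eval y (pderiv i (MvPolynomial.map κ (rename e (p * X n)))) =
            eval y (pderiv i (MvPolynomial.map κ (rename e p))) * y (e n) +
            eval (fun k => y (e k)) (MvPolynomial.map κ p) *
              (if i = e n then 1 else 0) := by
          intro i
          rw [map_mul, map_mul, rename_X, map_X, pderiv_mul, map_add, map_mul, map_mul, eval_X]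
          congr 1
          congr 1
          · rw [map_rename, eval_rename]
            rfl
          · by_cases hi : i = e n
            · subst hi
              rw [pderiv_X_self, map_one, if_pos rfl]
            · rw [pderiv_X_of_ne (Ne.symm hi), map_zero, if_neg hi]
        have e2 : ∀ k, eval (fun k => y (e k)) (MvPolynomial.map κ (pderiv k (p * X n))) =
            eval (fun k => y (e k)) (MvPolynomial.map κ (pderiv k p)) * y (e n) +
            eval (fun k => y (e k)) (MvPolynomial.map κ p) * (if k = n then 1 else 0) := by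
          intro k
          rw [pderiv_mul, map_add, map_mul, map_mul, map_X, map_add, map_mul, map_mul, eval_X]
          congr 1
          congr 1
          by_cases hi : k = n
          · subst hi
            rw [pderiv_X_self, map_one, map_one, if_pos rfl]
          · rw [pderiv_X_of_ne (Ne.symm hi), map_zero, map_zero, if_neg hi]
        simp only [e1, e2, mul_add, Finset.sum_add_distrib]
        congr 1
        · simp only [← mul_assoc, ← Finset.sum_mul]
          rw [hp]
        · simp
    rw [h2] at h1
    rw [Finset.sum_eq_single k] at h1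
    · rw [hc', Pi.single_eq_same, one_mul] at h1
      exact h1
    · intro j _ hj
      rw [hc', Pi.single_eq_of_ne hj, zero_mul]
    · intro h; exact absurd (Finset.mem_univ _) h
  have hz : ∀ k, pderiv k P = 0 := by
    intro k
    by_contra h
    exact hmin _ (deg_pderiv P k h) ⟨_, h, hder k, rfl⟩
  have h1 := const_of_pderiv P hz
  rw [h1, map_C, eval_C] at hP
  rw [(map_eq_zero κ).1 hP, map_zero] at h1
  exact hP0 h1

end Pool.Agent.H443.VD
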