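import Pool.Graph.R_seed8.Y787.AS.Var
import Pool.Agent.H443.VD.Tg

/-!
# Linear spaces through the points of a family on a variety of dimension `d`
-/

set_option autoImplicit false

namespace Pool.Agent.H443.VD
open MvPolynomial Module Filter
open Pool.Agent.W254.PA (Hyp)
open Pool.Agent.Y787.AS

variable {k Cc : Type} [Field k] [Field Cc] [Algebra k Cc]

section

variable {ι : Type} (𝒰 : Ultrafilter ι)

/-- the constants -/
noncomputable def cst (Cc : Type) [Field Cc] : Cc →+* GE 𝒰 Cc :=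
  (ge 𝒰 Cc).comp (Pi.constRingHom ι Cc)

theorem map_eval {m : ℕ} (z : ι → Fin m → Cc) (F : MvPolynomial (Fin m) Cc) :
    eval (fun i => ge 𝒰 Cc (fun x => z x i)) (MvPolynomial.map (cst 𝒰 Cc) F) =
      ge 𝒰 Cc (fun x => eval (z x) F) := by
  have h : (eval (fun i => ge 𝒰 Cc (fun x => z x i))).comp (MvPolynomial.map (cst 𝒰 Cc)) =
      (ge 𝒰 Cc).comp (RingHom.pi fun x : ι => eval (z x)) := by
    apply MvPolynomial.ringHom_ext
    · intro r
      rw [RingHom.comp_apply, map_C, eval_C]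
      change ge 𝒰 Cc (fun _ => r) = ge 𝒰 Cc (fun x => eval _ (C r))
      simp only [eval_C]
    · intro i
      rw [RingHom.comp_apply, map_X, eval_X]
      change _ = ge 𝒰 Cc (fun x => eval _ (X i))
      simp only [eval_X]
  exact RingHom.congr_fun h F

theorem map_coefD {m : ℕ} (D : Derivation ℤ (GE 𝒰 Cc) (GE 𝒰 Cc))
    (hD0 : ∀ z : Cc, D (ge 𝒰 Cc (fun _ => z)) = 0) (F : MvPolynomial (Fin m) Cc) :
    coefD D (MvPolynomial.map (cst 𝒰 Cc) F) = 0 := by
  ext s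
  rw [coeff_coefD, coeff_map, coeff_zero]
  exact hD0 _

/-- **The theorem for germs.** -/
theorem germ_main [CharZero k] [CharZero Cc] {Lt : Submodule k Cc} (hL : Hyp Lt)
    {m N q r d : ℕ} (l : Fin N → Cc) (hl : ∀ j, l j ∈ Lt)
    (hli : LinearIndependent k l) (β : ι → Fin m → Fin N → k)
    (F : Fin r → MvPolynomial (Fin m) Cc)
    (hF : ∀ x s, eval (fun i => ∑ j, algebraMap k Cc (β x i j) * l j) (F s) = 0)
    (hdim : ∀ e : Fin (d + 1) → Fin m, ∃ P : MvPolynomial (Fin (d + 1)) Cc, P ≠ 0 ∧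
      ∀ z : Fin m → Cc, (∀ s, eval z (F s) = 0) → eval (fun a => z (e a)) P = 0)
    (φ : Fin q → ((Fin m × Fin N → k) →ₗ[k] k))
    (hgen : ∀ P : MvPolynomial (Fin q) k, P ≠ 0 →
      ∀ᶠ x in (𝒰 : Filter ι), eval (fun i => φ i (fun p => β x p.1 p.2)) P ≠ 0) :
    ∃ ρ', ρ' ≤ d ∧ q ≤ ρ' * N + (d - ρ') * (d + 1) ∧ ∀ᶠ x in (𝒰 : Filter ι),
      ∃ R : Submodule k (Fin m → k), finrank k R = ρ' ∧ ∀ s, ∀ c ∈ RE Cc R,
        eval (fun i => ∑ j, algebraMap k Cc (β x i j) * l j + c i) (F s) = 0 := by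
  classical
  let _ := algG k Cc 𝒰
  have hch2 : CharZero (GE 𝒰 Cc) :=
    charZero_of_injective_ringHom ((ge 𝒰 Cc).comp (Pi.constRingHom ι Cc)).injective
  choose dd D hD1 hD2 hd3 hd4 using germ_der (Cc := Cc) 𝒰
    (fun x i => φ i (fun p => β x p.1 p.2)) hgen
  have hg : ∀ κ a, D κ (algebraMap (GE 𝒰 k) (GE 𝒰 Cc) a) =
      algebraMap (GE 𝒰 k) (GE 𝒰 Cc) ((fun κ => ⇑(dd κ)) κ a) := hD1
  have hl2 : ∀ j, ge 𝒰 Cc (fun _ => l j) ∈ LG 𝒰 Lt := fun j =>
    ⟨fun _ => l j, rfl, Eventually.of_forall fun _ => hl j⟩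
  have hli2 : LinearIndependent (GE 𝒰 k) (fun j => ge 𝒰 Cc (fun _ => l j)) := by
    rw [Fintype.linearIndependent_iff]
    intro c hc
    choose c' hc' using fun j => ge_surj 𝒰 k (c j)
    have h1 : ∑ j, geMap 𝒰 (algebraMap k Cc) (c j) * ge 𝒰 Cc (fun _ => l j) = 0 := by
      rw [← hc]
      refine Finset.sum_congr rfl fun j _ => ?_
      rw [Algebra.smul_def]
      rfl
    have h2 : ∑ j, geMap 𝒰 (algebraMap k Cc) (c j) * ge 𝒰 Cc (fun _ => l j) =
        ge 𝒰 Cc (fun x => ∑ j, algebraMap k Cc (c' j x) * l j) := by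
      simp only [← hc', geMap_ge, ← map_mul, ← map_sum]
      congr 1
      funext x
      rw [Finset.sum_apply]
      rfl
    rw [h2, ge_eq_zero] at h1
    intro j
    rw [← hc', ge_eq_zero]
    refine h1.mono fun x hx => ?_
    refine (Fintype.linearIndependent_iff.1 hli) (fun j => c' j x) ?_ j
    rw [← hx]
    exact Finset.sum_congr rfl fun j _ => Algebra.smul_def _ _
  -- the point
  have hy : ∀ i, ∑ j, algebraMap (GE 𝒰 k) (GE 𝒰 Cc) (ge 𝒰 k (fun x => β x i j)) *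
      ge 𝒰 Cc (fun _ => l j) = ge 𝒰 Cc (fun x => ∑ j, algebraMap k Cc (β x i j) * l j) := by
    intro i
    have h1 : ∀ j, algebraMap (GE 𝒰 k) (GE 𝒰 Cc) (ge 𝒰 k (fun x => β x i j)) *
        ge 𝒰 Cc (fun _ => l j) = ge 𝒰 Cc (fun x => algebraMap k Cc (β x i j) * l j) := by
      intro j
      change geMap 𝒰 (algebraMap k Cc) _ * _ = _
      rw [geMap_ge, ← map_mul]
      rfl
    rw [Finset.sum_congr rfl fun j _ => h1 j, ← map_sum]
    congr 1
    funext x
    rw [Finset.sum_apply]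
  have hinj : ∀ δ ∈ (⊤ : Submodule (GE 𝒰 k) (Fin q → GE 𝒰 k)),
      (∀ i j, gd (fun κ => ⇑(dd κ)) δ (ge 𝒰 k (fun x => β x i j)) = 0) → δ = 0 := by
    intro δ _ hδ
    funext κ
    have h1 : ge 𝒰 k (fun x => φ κ (fun p => β x p.1 p.2)) =
        ∑ p : Fin m × Fin N, ge 𝒰 k (fun _ => φ κ (Pi.single p 1)) *
          ge 𝒰 k (fun x => β x p.1 p.2) := by
      simp only [← map_mul, ← map_sum]
      congr 1
      funext x
      rw [Finset.sum_apply]
      conv_lhs => rw [pi_eq_sum_univ' (fun p : Fin m × Fin N => β x p.1 p.2), map_sum]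
      refine Finset.sum_congr rfl fun p _ => ?_
      rw [map_smul, smul_eq_mul]
      change _ = φ κ (Pi.single p 1) * β x p.1 p.2
      rw [mul_comm]
    have h2 : gd (fun κ => ⇑(dd κ)) δ (ge 𝒰 k (fun x => φ κ (fun p => β x p.1 p.2))) = 0 := by
      rw [h1, gd_sum_mul D (fun κ => ⇑(dd κ)) hg]
      refine Finset.sum_eq_zero fun p _ => ?_
      rw [hδ, mul_zero, add_zero]
      have h3 : gd (fun κ => ⇑(dd κ)) δ (ge 𝒰 k (fun _ => φ κ (Pi.single p 1))) = 0 := by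
        rw [gd]
        refine Finset.sum_eq_zero fun κ' _ => ?_
        rw [hd3, mul_zero]
      rw [h3, zero_mul]
    rw [gd, Finset.sum_eq_single κ] at h2
    · rw [hd4, if_pos rfl, mul_one] at h2
      exact h2
    · intro κ' _ hκ'
      rw [hd4, if_neg (Ne.symm hκ'), mul_zero]
    · intro h; exact absurd (Finset.mem_univ _) h
  obtain ⟨R, hR0, hR1, hR2⟩ := abs_main (hyp_germ 𝒰 hL)
    (fun j => ge 𝒰 Cc (fun _ => l j)) hl2 hli2 (fun i j => ge 𝒰 k (fun x => β x i j)) D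
    (fun κ => ⇑(dd κ)) hg (fun κ j => hD2 κ (l j)) ⊤ hinj
    {P | ∃ G : MvPolynomial (Fin m) Cc, P = MvPolynomial.map (cst 𝒰 Cc) G ∧
      eval (fun i => ge 𝒰 Cc (fun x => ∑ j, algebraMap k Cc (β x i j) * l j))
        (MvPolynomial.map (cst 𝒰 Cc) G) = 0} (by
      rintro _ ⟨G, rfl, hG⟩
      simp only [hy]
      exact hG) (by
      rintro δ hδ _ ⟨G, rfl, hG⟩
      refine map_coefD 𝒰 _ (fun z => ?_) _
      rw [Dd_apply]
      refine Finset.sum_eq_zero fun κ _ => ?_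
      rw [hD2, mul_zero]) d (by
      intro Θ hΘ
      refine tangent (cst 𝒰 Cc)
        (fun i => ge 𝒰 Cc (fun x => ∑ j, algebraMap k Cc (β x i j) * l j)) ?_ Θ ?_
      · intro e
        obtain ⟨P, h1, h2⟩ := hdim e
        refine ⟨P, h1, ?_⟩
        rw [map_eval 𝒰 (fun x a => ∑ j, algebraMap k Cc (β x (e a) j) * l j), ge_eq_zero]
        exact Eventually.of_forall fun x =>
          h2 (fun i => ∑ j, algebraMap k Cc (β x i j) * l j) (hF x)
      · intro c hc G hG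
        have := hΘ c hc _ ⟨G, rfl, hG⟩
        simp only [hy] at this
        exact this)
  rw [finrank_top, finrank_fintype_fun_eq_card, Fintype.card_fin] at hR1
  refine ⟨finrank (GE 𝒰 k) R, hR0, hR1, ?_⟩
  -- representatives of a basis
  let cB := finBasis (GE 𝒰 k) R
  choose C hC using fun b i => ge_surj 𝒰 k ((cB b : Fin m → GE 𝒰 k) i)
  have e1 : ∀ᶠ x in (𝒰 : Filter ι), ∀ c : Fin (finrank (GE 𝒰 k) R) → k,
      (∀ i, ∑ b, algebraMap k k (c b) * C b i x = 0) → c = 0 := by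
    refine ev_li 𝒰 (fun b (i : Fin m) => C b i) fun c hc => ?_
    funext b
    refine (Fintype.linearIndependent_iff.1 cB.linearIndependent) c ?_ b
    apply Subtype.ext
    funext i
    simp only [Submodule.coe_sum, Submodule.coe_smul, Finset.sum_apply, Pi.smul_apply,
      smul_eq_mul, ← hC]
    have h1 := hc i
    have h2 : ∀ z : GE 𝒰 k, geMap 𝒰 (algebraMap k k) z = z := by
      intro z
      obtain ⟨z', rfl⟩ := ge_surj 𝒰 k z
      rfl
    simp only [h2] at h1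
    exact h1
  have e2 : ∀ᶠ x in (𝒰 : Filter ι), ∀ s, ∀ e : Fin (finrank (GE 𝒰 k) R) → Cc,
      eval (fun i => ∑ j, algebraMap k Cc (β x i j) * l j +
        ∑ b, e b * algebraMap k Cc (C b i x)) (F s) = 0 := by
    rw [eventually_all]
    intro s
    by_contra hcon
    rw [← Ultrafilter.eventually_not] at hcon
    have h1 : ∀ x, ∃ e : Fin (finrank (GE 𝒰 k) R) → Cc,
        (¬ ∀ e : Fin (finrank (GE 𝒰 k) R) → Cc,
          eval (fun i => ∑ j, algebraMap k Cc (β x i j) * l j +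
            ∑ b, e b * algebraMap k Cc (C b i x)) (F s) = 0) →
        eval (fun i => ∑ j, algebraMap k Cc (β x i j) * l j +
          ∑ b, e b * algebraMap k Cc (C b i x)) (F s) ≠ 0 := by
      intro x
      by_cases hx : ∀ e : Fin (finrank (GE 𝒰 k) R) → Cc,
          eval (fun i => ∑ j, algebraMap k Cc (β x i j) * l j +
            ∑ b, e b * algebraMap k Cc (C b i x)) (F s) = 0
      · exact ⟨0, fun h => absurd hx h⟩
      · obtain ⟨e, he⟩ := not_forall.1 hx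
        exact ⟨e, fun _ => he⟩
    choose e he using h1
    have h2 := hR2 (MvPolynomial.map (cst 𝒰 Cc) (F s)) ⟨F s, rfl, by
      rw [map_eval 𝒰 (fun x i => ∑ j, algebraMap k Cc (β x i j) * l j), ge_eq_zero]
      exact Eventually.of_forall fun x => hF x s⟩ (∑ b, ge 𝒰 Cc (fun x => e x b) •
      fun i => algebraMap (GE 𝒰 k) (GE 𝒰 Cc) ((cB b : Fin m → GE 𝒰 k) i))
      (Submodule.sum_mem _ fun b _ => Submodule.smul_mem _ _ (Submodule.subset_span
        ⟨_, (cB b).2, rfl⟩))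
    have h3 : (fun i => ∑ j, algebraMap (GE 𝒰 k) (GE 𝒰 Cc) (ge 𝒰 k (fun x => β x i j)) *
        ge 𝒰 Cc (fun _ => l j) + (∑ b, ge 𝒰 Cc (fun x => e x b) •
      fun i => algebraMap (GE 𝒰 k) (GE 𝒰 Cc) ((cB b : Fin m → GE 𝒰 k) i)) i) =
        fun i => ge 𝒰 Cc (fun x => ∑ j, algebraMap k Cc (β x i j) * l j +
          ∑ b, e x b * algebraMap k Cc (C b i x)) := by
      funext i
      rw [hy, Finset.sum_apply]
      have h4 : ∀ b, (ge 𝒰 Cc (fun x => e x b) • fun i => algebraMap (GE 𝒰 k) (GE 𝒰 Cc)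
          ((cB b : Fin m → GE 𝒰 k) i)) i = ge 𝒰 Cc (fun x => e x b * algebraMap k Cc (C b i x)) := by
        intro b
        rw [Pi.smul_apply, smul_eq_mul, ← hC]
        change ge 𝒰 Cc _ * geMap 𝒰 (algebraMap k Cc) _ = _
        rw [geMap_ge, ← map_mul]
        rfl
      rw [Finset.sum_congr rfl fun b _ => h4 b, ← map_sum, ← map_add]
      congr 1
      funext x
      rw [Pi.add_apply, Finset.sum_apply]
    rw [h3, map_eval 𝒰 (fun x i => ∑ j, algebraMap k Cc (β x i j) * l j +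
          ∑ b, e x b * algebraMap k Cc (C b i x)), ge_eq_zero] at h2
    obtain ⟨x, hx1, hx2⟩ := (hcon.and h2).exists
    exact he x hx1 hx2
  refine (e1.and e2).mono fun x hx => ?_
  have hlix : LinearIndependent k (fun b i => C b i x) := by
    rw [Fintype.linearIndependent_iff]
    intro c hc b
    refine congrFun (hx.1 c fun i => ?_) b
    have h1 := congrFun hc i
    rw [Finset.sum_apply, Pi.zero_apply] at h1
    exact h1
  refine ⟨Submodule.span k (Set.range fun b i => C b i x), ?_, ?_⟩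
  · rw [finrank_span_eq_card hlix, Fintype.card_fin]
  · intro s c hc
    obtain ⟨e, he⟩ := RE_span _ hc
    have h1 := hx.2 s e
    simp only [← he] at h1
    exact h1

end

/-- the arithmetic of the exponents -/
theorem expo' {N d ρ' ρ : ℕ} (h : ρ' ≤ ρ) (hd : ρ' ≤ d) :
    ρ' * N + (d - ρ') * (d + 1) ≤ d * (d + 1) + ρ * (N - (d + 1)) := by
  obtain ⟨a, rfl⟩ : ∃ a, d = ρ' + a := ⟨d - ρ', by omega⟩
  rw [Nat.add_sub_cancel_left]
  have h1 : ρ' * (N - (ρ' + a + 1)) ≤ ρ * (N - (ρ' + a + 1)) := Nat.mul_le_mul_right _ h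
  have h2 : ρ' * N ≤ ρ' * (N - (ρ' + a + 1)) + ρ' * (ρ' + a + 1) := by
    rw [← mul_add]
    exact Nat.mul_le_mul_left _ (by omega)
  have h3 : (ρ' + a) * (ρ' + a + 1) = ρ' * (ρ' + a + 1) + a * (ρ' + a + 1) := by ring
  omega

/-- **The theorem in coordinates.** -/
theorem var_coord [CharZero k] [CharZero Cc] {Lt : Submodule k Cc} (hL : Hyp Lt)
    {m N r d ρ : ℕ} (l : Fin N → Cc) (hl : ∀ j, l j ∈ Lt)
    (hli : LinearIndependent k l) (F : Fin r → MvPolynomial (Fin m) Cc)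
    (hdim : ∀ e : Fin (d + 1) → Fin m, ∃ P : MvPolynomial (Fin (d + 1)) Cc, P ≠ 0 ∧
      ∀ z : Fin m → Cc, (∀ s, eval z (F s) = 0) → eval (fun a => z (e a)) P = 0)
    (φ : Fin (d * (d + 1) + ρ * (N - (d + 1)) + 1) → ((Fin m × Fin N → k) →ₗ[k] k)) :
    ∃ P : MvPolynomial (Fin (d * (d + 1) + ρ * (N - (d + 1)) + 1)) k, P ≠ 0 ∧
      ∀ b : Fin m → Fin N → k,
      (∀ s, eval (fun i => ∑ j, algebraMap k Cc (b i j) * l j) (F s) = 0) →
      (∀ R : Submodule k (Fin m → k),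
        Trans k F (fun i => ∑ j, algebraMap k Cc (b i j) * l j) R → finrank k R ≤ ρ) →
      eval (fun i => φ i (fun p => b p.1 p.2)) P = 0 := by
  classical
  by_contra hcon
  push Not at hcon
  let ι := {x : Fin m → Fin N → k //
    (∀ s, eval (fun i => ∑ j, algebraMap k Cc (x i j) * l j) (F s) = 0) ∧
      ∀ R : Submodule k (Fin m → k),
        Trans k F (fun i => ∑ j, algebraMap k Cc (x i j) * l j) R → finrank k R ≤ ρ}
  obtain ⟨𝒰, h𝒰⟩ := Pool.Agent.Y787.FE.exists_ultra' (K := k) (ι := ι)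
    (n := d * (d + 1) + ρ * (N - (d + 1)) + 1)
    (fun x i => φ i (fun p => x.1 p.1 p.2)) (by
      intro P hP
      obtain ⟨b, h1, h2, h3⟩ := hcon P hP
      exact ⟨⟨b, h1, h2⟩, h3⟩)
  obtain ⟨ρ', h0, h1, h2⟩ := germ_main (ι := ι) 𝒰 hL l hl hli (fun x => x.1) F
    (fun x s => x.2.1 s) hdim φ h𝒰
  obtain ⟨x, R, hR1, hR2⟩ := h2.exists
  have h3 : ρ' ≤ ρ := by
    rw [← hR1]
    exact x.2.2 R hR2
  have := expo' (N := N) h3 h0
  omega

end Pool.Agent.H443.VD
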