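import Pool.Graph.R_pool_sql_team_seeded_1acbe0a2.Y787.AS.VarFin
import Pool.Agent.H443.VD.Gm

/-!
# Points on varieties of dimension `d`: dimension and counting
-/

set_option autoImplicit false

namespace Pool.Agent.H443.VD
open MvPolynomial Module Filter
open Pool.Agent.W254.PA (Hyp)
open Pool.Agent.Y787.AS

/-- any `d + 1` coordinates satisfy a relation on the zero set -/
def DimF {Cc : Type} [Field Cc] {m r : ℕ} (F : Fin r → MvPolynomial (Fin m) Cc) (d : ℕ) : Prop :=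
  ∀ e : Fin (d + 1) → Fin m, ∃ P : MvPolynomial (Fin (d + 1)) Cc, P ≠ 0 ∧
    ∀ z : Fin m → Cc, (∀ s, eval z (F s) = 0) → eval (fun a => z (e a)) P = 0

section general

variable {k Cc : Type} [Field k] [Field Cc] [Algebra k Cc]

/-- **Dimension.** -/
theorem var_dim [CharZero k] [CharZero Cc] {Lt : Submodule k Cc} (hL : Hyp Lt)
    (W : Submodule k Cc) [FiniteDimensional k W] (hW : W ≤ Lt) {m r d ρ : ℕ}
    (F : Fin r → MvPolynomial (Fin m) Cc) (hd : DimF F d)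
    (φ : Fin (d * (d + 1) + ρ * (finrank k W - (d + 1)) + 1) → ((Fin m → W) →ₗ[k] k)) :
    ∃ P : MvPolynomial (Fin (d * (d + 1) + ρ * (finrank k W - (d + 1)) + 1)) k, P ≠ 0 ∧
      ∀ y : Fin m → W, (∀ s, eval (fun i => (y i : Cc)) (F s) = 0) →
      (∀ R : Submodule k (Fin m → k), Trans k F (fun i => (y i : Cc)) R → finrank k R ≤ ρ) →
      eval (fun i => φ i y) P = 0 := by
  obtain ⟨P, h1, h2⟩ := var_coord hL
    (fun j => (Module.finBasis k W j : Cc)) (fun j => hW (Module.finBasis k W j).2)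
    ((Module.finBasis k W).linearIndependent.map' W.subtype
      (LinearMap.ker_eq_bot.2 W.subtype_injective)) F hd (fun i => φ i ∘ₗ mkT m)
  refine ⟨P, h1, fun y hy ht => ?_⟩
  have h3 : (fun i => ∑ j, algebraMap k Cc ((Module.finBasis k W).repr (y i) j) *
      (Module.finBasis k W j : Cc)) = fun i => (y i : Cc) := by
    funext i
    have h4 := congrArg (fun w : W => (w : Cc)) ((Module.finBasis k W).sum_repr (y i))
    simp only [Submodule.coe_sum, Submodule.coe_smul, Algebra.smul_def] at h4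
    exact h4
  have h5 : mkT (k := k) (W := W) m (fun p => (Module.finBasis k W).repr (y p.1) p.2) = y := by
    funext i
    exact (Module.finBasis k W).sum_repr (y i)
  have h6 := h2 (fun i j => (Module.finBasis k W).repr (y i) j) (by
    rw [h3]; exact hy) (by rw [h3]; exact ht)
  simp only [LinearMap.comp_apply, h5] at h6
  exact h6

end general

section rational

variable {E : Type} [Field E] [CharZero E]

theorem var_upper {Lt : Submodule ℚ E} (hL : Hyp Lt) {m N r d ρ : ℕ}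
    (l : Fin N → E) (hl : ∀ j, l j ∈ Lt) (hli : LinearIndependent ℚ l)
    (F : Fin r → MvPolynomial (Fin m) E) (hd : DimF F d)
    (hF : ∀ (A : Fin m → Fin N → ℤ) (R : Submodule ℚ (Fin m → ℚ)),
      Trans ℚ F (fun i => ∑ j, (A i j : E) * l j) R → finrank ℚ R ≤ ρ) :
    ∃ κ : ℕ, ∀ H : ℕ, 1 ≤ H → numV F l H ≤ κ * H ^ (d * (d + 1) + ρ * (N - (d + 1))) := by
  classical
  have hcast : ∀ A : Fin m → Fin N → ℤ,
      (fun i => ∑ j, algebraMap ℚ E ((A i j : ℤ) : ℚ) * l j) =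
      fun i => ∑ j, (A i j : E) * l j := by
    intro A
    funext i
    simp
  obtain ⟨κ, hκ⟩ := Pool.Agent.Y787.HS.count_gen (K := ℚ)
    (d := d * (d + 1) + ρ * (N - (d + 1))) (σ := Fin m × Fin N)
    {x | (∀ s, eval (fun i => ∑ j, algebraMap ℚ E (x (i, j)) * l j) (F s) = 0) ∧
      ∀ R : Submodule ℚ (Fin m → ℚ),
        Trans ℚ F (fun i => ∑ j, algebraMap ℚ E (x (i, j)) * l j) R → finrank ℚ R ≤ ρ} (by
      intro φ
      obtain ⟨P, h1, h2⟩ := var_coord hL l hl hli F hd φ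
      exact ⟨P, h1, fun x hx => h2 (fun i j => x (i, j)) hx.1 hx.2⟩)
  refine ⟨κ, fun H hH => ?_⟩
  rw [numV, Set.ncard_eq_toFinset_card _ (box_finite' H _)]
  let g : (Fin m → Fin N → ℤ) → (Fin m × Fin N → ℤ) := fun A p => A p.1 p.2
  have hg : Function.Injective g := by
    intro A A' h
    funext i j
    exact congrFun h (i, j)
  rw [← Finset.card_image_of_injective _ hg]
  refine hκ H hH _ ?_
  intro a ha
  obtain ⟨A, hA, rfl⟩ := Finset.mem_image.1 ha
  rw [Set.Finite.mem_toFinset] at hA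
  obtain ⟨h1, h2⟩ := hA
  refine ⟨fun p => h1 _ _, fun s => ?_, fun R hR => ?_⟩
  · change eval (fun i => ∑ j, algebraMap ℚ E ((A i j : ℤ) : ℚ) * l j) (F s) = 0
    rw [hcast]
    exact h2 s
  · refine hF A R ?_
    have h3 : Trans ℚ F (fun i => ∑ j, algebraMap ℚ E ((A i j : ℤ) : ℚ) * l j) R := hR
    rwa [hcast] at h3

end rational

open Pool.Agent.Y787 (QC HypC)

/-- complex logarithms -/
theorem varC_dim (W : Submodule (QC ℂ) ℂ) [FiniteDimensional (QC ℂ) W]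
    (hW : W ≤ Pool.Agent.H301R2.SSE.Lt) {m r d ρ : ℕ}
    (F : Fin r → MvPolynomial (Fin m) ℂ) (hd : DimF F d)
    (φ : Fin (d * (d + 1) + ρ * (finrank (QC ℂ) W - (d + 1)) + 1) →
      ((Fin m → W) →ₗ[QC ℂ] QC ℂ)) :
    ∃ P : MvPolynomial (Fin (d * (d + 1) + ρ * (finrank (QC ℂ) W - (d + 1)) + 1)) (QC ℂ), P ≠ 0 ∧
      ∀ y : Fin m → W, (∀ s, eval (fun i => (y i : ℂ)) (F s) = 0) →
      (∀ R : Submodule (QC ℂ) (Fin m → QC ℂ), Trans (QC ℂ) F (fun i => (y i : ℂ)) R →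
        finrank (QC ℂ) R ≤ ρ) → eval (fun i => φ i y) P = 0 :=
  var_dim (HypC.hyp (Lt := Pool.Agent.H301R2.SSE.Lt)) W hW F hd φ

theorem varC_count {m N r d ρ : ℕ} (l : Fin N → ℂ)
    (halg : ∀ j, IsAlgebraic ℚ (Complex.exp (l j))) (hli : LinearIndependent ℚ l)
    (F : Fin r → MvPolynomial (Fin m) ℂ) (hd : DimF F d)
    (hF : ∀ (A : Fin m → Fin N → ℤ) (R : Submodule ℚ (Fin m → ℚ)),
      Trans ℚ F (fun i => ∑ j, (A i j : ℂ) * l j) R → finrank ℚ R ≤ ρ) :
    ∃ κ : ℕ, ∀ H : ℕ, 1 ≤ H → numV F l H ≤ κ * H ^ (d * (d + 1) + ρ * (N - (d + 1))) :=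
  var_upper hypQ_complex l (fun j => Submodule.subset_span (Or.inr (halg j))) hli F hd hF

section padic

open Pool.Agent.W254.PA (logs LtE)
open Pool.Agent.W245.PB (IsIwasawaLog)

variable {p : ℕ} [hp : Fact p.Prime] {L : PadicAlgCl p → PadicAlgCl p}

theorem varP_dim (hL : IsIwasawaLog p L) (W : Submodule (QC (PadicAlgCl p)) (PadicAlgCl p))
    [FiniteDimensional (QC (PadicAlgCl p)) W] (hW : W ≤ LtE (logs L)) {m r d ρ : ℕ}
    (F : Fin r → MvPolynomial (Fin m) (PadicAlgCl p)) (hd : DimF F d)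
    (φ : Fin (d * (d + 1) + ρ * (finrank (QC (PadicAlgCl p)) W - (d + 1)) + 1) →
      ((Fin m → W) →ₗ[QC (PadicAlgCl p)] QC (PadicAlgCl p))) :
    ∃ P : MvPolynomial (Fin (d * (d + 1) + ρ * (finrank (QC (PadicAlgCl p)) W - (d + 1)) + 1))
      (QC (PadicAlgCl p)), P ≠ 0 ∧
      ∀ y : Fin m → W, (∀ s, eval (fun i => (y i : PadicAlgCl p)) (F s) = 0) →
      (∀ R : Submodule (QC (PadicAlgCl p)) (Fin m → QC (PadicAlgCl p)),
        Trans (QC (PadicAlgCl p)) F (fun i => (y i : PadicAlgCl p)) R →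
        finrank (QC (PadicAlgCl p)) R ≤ ρ) → eval (fun i => φ i y) P = 0 :=
  var_dim (Pool.Agent.W254.PA.hyp_padic hL) W hW F hd φ

theorem varP_count (hL : IsIwasawaLog p L) {m N r d ρ : ℕ} (l : Fin N → PadicAlgCl p)
    (hl : ∀ j, ∃ α : PadicAlgCl p, α ≠ 0 ∧ IsAlgebraic ℚ α ∧ l j = L α)
    (hli : LinearIndependent ℚ l) (F : Fin r → MvPolynomial (Fin m) (PadicAlgCl p))
    (hd : DimF F d)
    (hF : ∀ (A : Fin m → Fin N → ℤ) (R : Submodule ℚ (Fin m → ℚ)),
      Trans ℚ F (fun i => ∑ j, (A i j : PadicAlgCl p) * l j) R → finrank ℚ R ≤ ρ) :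
    ∃ κ : ℕ, ∀ H : ℕ, 1 ≤ H → numV F l H ≤ κ * H ^ (d * (d + 1) + ρ * (N - (d + 1))) :=
  var_upper (hypQ_padic hL) l (fun j => Submodule.subset_span (Or.inr (hl j))) hli F hd hF

end padic

end Pool.Agent.H443.VD
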