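import Pool.Agent.H443.VD.Gm

/-!
# Uniform bounds by ultraproducts
-/

set_option autoImplicit false

namespace Pool.Agent.H443.VD
open MvPolynomial Module Filter
open Pool.Agent.W254.PA (Hyp)
open Pool.Agent.Y787.AS

section germpoly

variable {ι : Type} (𝒰 : Ultrafilter ι) {C : Type} [Field C] {σ : Type} [Fintype σ]

/-- the exponents with entries at most `δ` -/
noncomputable def exq (σ : Type) [Fintype σ] (δ : ℕ) : Finset (σ →₀ ℕ) := by
  classical
  exact (Fintype.piFinset fun _ : σ => Finset.range (δ + 1)).map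
    Finsupp.equivFunOnFinite.symm.toEmbedding

omit [Fintype σ] in
theorem le_of_deg {R : Type} [CommRing R] {δ : ℕ} {Q : MvPolynomial σ R} (h : Q.totalDegree ≤ δ)
    {s : σ →₀ ℕ} (hs : coeff s Q ≠ 0) (i : σ) : s i ≤ δ := by
  classical
  have h1 := le_totalDegree (MvPolynomial.mem_support_iff.2 hs)
  refine le_trans ?_ (h1.trans h)
  rw [Finsupp.sum]
  by_cases h2 : i ∈ s.support
  · exact Finset.single_le_sum (f := fun i => s i) (fun _ _ => Nat.zero_le _) h2
  · rw [Finsupp.notMem_support_iff.1 h2]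
    exact Nat.zero_le _

theorem mem_exq {δ : ℕ} {s : σ →₀ ℕ} : s ∈ exq σ δ ↔ ∀ i, s i ≤ δ := by
  classical
  unfold exq
  rw [Finset.mem_map]
  constructor
  · rintro ⟨f, hf, rfl⟩ i
    rw [Fintype.mem_piFinset] at hf
    have := Finset.mem_range.1 (hf i)
    have h2 : (Finsupp.equivFunOnFinite.symm.toEmbedding f) i = f i := rfl
    omega
  · intro h
    refine ⟨fun i => s i, ?_, ?_⟩
    · rw [Fintype.mem_piFinset]
      intro i
      rw [Finset.mem_range]
      have := h i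
      omega
    · ext i
      rfl

/-- the polynomial with the germs of the coefficients -/
noncomputable def gp (δ : ℕ) (Q : ι → MvPolynomial σ C) : MvPolynomial σ (GE 𝒰 C) :=
  ∑ s ∈ exq σ δ, monomial s (ge 𝒰 C (fun x => coeff s (Q x)))

theorem coeff_gp {δ : ℕ} {Q : ι → MvPolynomial σ C} (hQ : ∀ x, (Q x).totalDegree ≤ δ)
    (s : σ →₀ ℕ) : coeff s (gp 𝒰 δ Q) = ge 𝒰 C (fun x => coeff s (Q x)) := by
  classical
  unfold gp
  rw [coeff_sum]
  simp only [coeff_monomial]
  by_cases hs : s ∈ exq σ δ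
  · rw [Finset.sum_eq_single s]
    · rw [if_pos rfl]
    · intro t _ ht
      rw [if_neg ht]
    · intro h; exact absurd hs h
  · rw [Finset.sum_eq_zero]
    · symm
      rw [ge_eq_zero]
      refine Eventually.of_forall fun x => ?_
      by_contra h
      exact hs (mem_exq.2 (le_of_deg (hQ x) h))
    · intro t ht
      rw [if_neg]
      rintro rfl
      exact hs ht

theorem eval_exq {δ : ℕ} {Q : MvPolynomial σ C} (hQ : Q.totalDegree ≤ δ) (z : σ → C) :
    eval z Q = ∑ s ∈ exq σ δ, coeff s Q * ∏ i, z i ^ s i := by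
  classical
  rw [eval_eq']
  refine Finset.sum_subset ?_ ?_
  · intro s hs
    exact mem_exq.2 (le_of_deg hQ (MvPolynomial.mem_support_iff.1 hs))
  · intro s _ hs
    rw [MvPolynomial.notMem_support_iff.1 hs, zero_mul]

theorem eval_gp {δ : ℕ} {Q : ι → MvPolynomial σ C} (hQ : ∀ x, (Q x).totalDegree ≤ δ)
    (z : ι → σ → C) : eval (fun i => ge 𝒰 C (fun x => z x i)) (gp 𝒰 δ Q) =
      ge 𝒰 C (fun x => eval (z x) (Q x)) := by
  classical
  unfold gp
  rw [map_sum]
  have h1 : ge 𝒰 C (fun x => eval (z x) (Q x)) =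
      ∑ s ∈ exq σ δ, ge 𝒰 C (fun x => coeff s (Q x) * ∏ i, z x i ^ s i) := by
    rw [← map_sum]
    congr 1
    funext x
    rw [Finset.sum_apply, eval_exq (hQ x)]
  rw [h1]
  refine Finset.sum_congr rfl fun s _ => ?_
  rw [eval_monomial, Finsupp.prod_fintype _ _ (fun _ => pow_zero _)]
  simp only [← map_pow, ← map_prod, ← map_mul]
  congr 1
  funext x
  rw [Pi.mul_apply, Finset.prod_apply]
  rfl

theorem gp_ne_zero {δ : ℕ} {Q : ι → MvPolynomial σ C} (hQ : ∀ x, (Q x).totalDegree ≤ δ)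
    (h0 : ∀ x, Q x ≠ 0) : gp 𝒰 δ Q ≠ 0 := by
  classical
  intro h
  have h1 : ∀ s ∈ exq σ δ, ∀ᶠ x in (𝒰 : Filter ι), coeff s (Q x) = 0 := by
    intro s _
    rw [← ge_eq_zero, ← coeff_gp 𝒰 hQ, h, coeff_zero]
  rw [← Filter.eventually_all_finset] at h1
  obtain ⟨x, hx⟩ := h1.exists
  apply h0 x
  ext s
  rw [coeff_zero]
  by_contra hs
  exact hs (hx s (mem_exq.2 (le_of_deg (hQ x) hs)))

/-- every polynomial over the field of germs -/
theorem gp_surj (P : MvPolynomial σ (GE 𝒰 C)) (hP : P ≠ 0) : ∃ Q : ι → MvPolynomial σ C,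
    (∀ x, (Q x).totalDegree ≤ P.totalDegree) ∧ P = gp 𝒰 P.totalDegree Q ∧
    ∀ᶠ x in (𝒰 : Filter ι), Q x ≠ 0 := by
  classical
  choose c hc using fun s => ge_surj 𝒰 C (coeff s P)
  have hdeg : ∀ x, (∑ s ∈ P.support, monomial s (c s x)).totalDegree ≤ P.totalDegree := by
    intro x
    refine totalDegree_finsetSum_le fun s hs => ?_
    refine (totalDegree_monomial_le _ _).trans ?_
    exact le_totalDegree hs
  have hco : ∀ s x, coeff s (∑ s ∈ P.support, monomial s (c s x)) =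
      if s ∈ P.support then c s x else 0 := by
    intro s x
    rw [coeff_sum]
    simp only [coeff_monomial]
    rw [Finset.sum_ite_eq' P.support s (fun t => c t x)]
  refine ⟨fun x => ∑ s ∈ P.support, monomial s (c s x), hdeg, ?_, ?_⟩
  · ext s
    rw [coeff_gp 𝒰 hdeg]
    simp only [hco]
    by_cases hs : s ∈ P.support
    · simp only [if_pos hs]
      exact (hc s).symm
    · simp only [if_neg hs]
      rw [MvPolynomial.notMem_support_iff.1 hs]
      exact (map_zero _).symm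
  · obtain ⟨s, hs⟩ : ∃ s, coeff s P ≠ 0 := by
      by_contra h
      push Not at h
      exact hP (MvPolynomial.ext _ _ fun s => by rw [h s, coeff_zero])
    have h1 : ¬ ∀ᶠ x in (𝒰 : Filter ι), c s x = 0 := by
      rw [← ge_eq_zero, hc]
      exact hs
    rw [← Ultrafilter.eventually_not] at h1
    refine h1.mono fun x hx h => hx ?_
    have h2 := hco s x
    rw [if_pos (MvPolynomial.mem_support_iff.2 hs)] at h2
    rw [← h2]
    have h3 := congrArg (coeff s) h
    rw [coeff_zero] at h3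
    exact h3

end germpoly

variable {k Cc : Type} [Field k] [Field Cc] [Algebra k Cc]

/-- any `d + 1` coordinates satisfy a relation of degree at most `δ` on the zero set -/
def DimD {Cc : Type} [Field Cc] {m r : ℕ} (F : Fin r → MvPolynomial (Fin m) Cc) (d δ : ℕ) : Prop :=
  ∀ e : Fin (d + 1) → Fin m, ∃ P : MvPolynomial (Fin (d + 1)) Cc, P ≠ 0 ∧ P.totalDegree ≤ δ ∧
    ∀ z : Fin m → Cc, (∀ s, eval z (F s) = 0) → eval (fun a => z (e a)) P = 0

/-- **The uniform theorem in coordinates.** -/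
theorem unif_coord [CharZero k] [CharZero Cc] {Lt : Submodule k Cc} (hL : Hyp Lt)
    (m N r d δ ρ : ℕ) : ∃ B : ℕ, ∀ l : Fin N → Cc, (∀ j, l j ∈ Lt) → LinearIndependent k l →
    ∀ F : Fin r → MvPolynomial (Fin m) Cc, (∀ s, (F s).totalDegree ≤ δ) → DimD F d δ →
    ∀ φ : Fin (d * (d + 1) + ρ * (N - (d + 1)) + 1) → ((Fin m × Fin N → k) →ₗ[k] k),
    ∃ P : MvPolynomial (Fin (d * (d + 1) + ρ * (N - (d + 1)) + 1)) k, P ≠ 0 ∧ P.totalDegree ≤ B ∧
      ∀ b : Fin m → Fin N → k,
      (∀ s, eval (fun i => ∑ j, algebraMap k Cc (b i j) * l j) (F s) = 0) →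
      (∀ R : Submodule k (Fin m → k),
        Trans k F (fun i => ∑ j, algebraMap k Cc (b i j) * l j) R → finrank k R ≤ ρ) →
      eval (fun i => φ i (fun p => b p.1 p.2)) P = 0 := by
  classical
  by_contra hcon
  push Not at hcon
  choose l hl hli F hFδ hdim φ hbad using hcon
  let 𝒰 : Ultrafilter ℕ := hyperfilter ℕ
  let _ := algG k Cc 𝒰
  have hch1 : CharZero (GE 𝒰 k) :=
    charZero_of_injective_ringHom ((ge 𝒰 k).comp (Pi.constRingHom ℕ k)).injective
  have hch2 : CharZero (GE 𝒰 Cc) :=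
    charZero_of_injective_ringHom ((ge 𝒰 Cc).comp (Pi.constRingHom ℕ Cc)).injective
  have halg : ∀ a : ℕ → k, algebraMap (GE 𝒰 k) (GE 𝒰 Cc) (ge 𝒰 k a) =
      ge 𝒰 Cc (fun x => algebraMap k Cc (a x)) := fun a => rfl
  have hl2 : ∀ j, ge 𝒰 Cc (fun x => l x j) ∈ LG 𝒰 Lt := fun j =>
    ⟨fun x => l x j, rfl, Eventually.of_forall fun x => hl x j⟩
  have hpt : ∀ c : Fin N → ℕ → k, ∑ j, algebraMap (GE 𝒰 k) (GE 𝒰 Cc) (ge 𝒰 k (c j)) *
      ge 𝒰 Cc (fun x => l x j) = ge 𝒰 Cc (fun x => ∑ j, algebraMap k Cc (c j x) * l x j) := by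
    intro c
    simp only [halg, ← map_mul, ← map_sum]
    congr 1
    funext x
    rw [Finset.sum_apply]
    rfl
  have hli2 : LinearIndependent (GE 𝒰 k) (fun j => ge 𝒰 Cc (fun x => l x j)) := by
    rw [Fintype.linearIndependent_iff]
    intro c hc
    choose c' hc' using fun j => ge_surj 𝒰 k (c j)
    have h1 := hpt c'
    simp only [hc'] at h1
    simp only [Algebra.smul_def] at hc
    rw [hc] at h1
    have h2 := (ge_eq_zero 𝒰 _).1 h1.symm
    intro j
    rw [← hc', ge_eq_zero]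
    refine h2.mono fun x hx => ?_
    refine (Fintype.linearIndependent_iff.1 (hli x)) (fun j => c' j x) ?_ j
    rw [← hx]
    exact Finset.sum_congr rfl fun j _ => Algebra.smul_def _ _
  -- the variety over the field of germs
  have hdimg : ∀ e : Fin (d + 1) → Fin m, ∃ P : MvPolynomial (Fin (d + 1)) (GE 𝒰 Cc), P ≠ 0 ∧
      ∀ z : Fin m → GE 𝒰 Cc, (∀ s, eval z (gp 𝒰 δ (fun x => F x s)) = 0) →
        eval (fun a => z (e a)) P = 0 := by
    intro e
    choose P hP0 hPd hP using fun x => hdim x e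
    refine ⟨gp 𝒰 δ P, gp_ne_zero 𝒰 hPd hP0, fun z hz => ?_⟩
    choose z' hz' using fun i => ge_surj 𝒰 Cc (z i)
    have h1 : ∀ s, ∀ᶠ x in (𝒰 : Filter ℕ), eval (fun i => z' i x) (F x s) = 0 := by
      intro s
      rw [← ge_eq_zero, ← eval_gp 𝒰 (Q := fun x => F x s) (fun x => hFδ x s)
        (fun x i => z' i x)]
      simp only [hz']
      exact hz s
    rw [← eventually_all] at h1
    have h2 := eval_gp 𝒰 hPd (fun x a => z' (e a) x)
    simp only [hz'] at h2
    rw [h2, ge_eq_zero]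
    exact h1.mono fun x hx => hP x _ hx
  -- the linear forms
  let φg : Fin (d * (d + 1) + ρ * (N - (d + 1)) + 1) →
      ((Fin m × Fin N → GE 𝒰 k) →ₗ[GE 𝒰 k] GE 𝒰 k) := fun i =>
    ∑ p, (ge 𝒰 k (fun x => φ x i (Pi.single p 1))) • LinearMap.proj p
  have hφg : ∀ i (β : ℕ → Fin m × Fin N → k), φg i (fun p => ge 𝒰 k (fun x => β x p)) =
      ge 𝒰 k (fun x => φ x i (β x)) := by
    intro i β
    have e0 : φg i (fun p => ge 𝒰 k (fun x => β x p)) =
        ∑ p, ge 𝒰 k (fun x => φ x i (Pi.single p 1)) * ge 𝒰 k (fun x => β x p) := by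
      simp only [φg]
      rw [LinearMap.sum_apply]
      rfl
    rw [e0]
    simp only [← map_mul, ← map_sum]
    congr 1
    funext x
    rw [Finset.sum_apply]
    conv_rhs => rw [pi_eq_sum_univ' (β x), map_sum]
    refine Finset.sum_congr rfl fun p _ => ?_
    rw [map_smul, smul_eq_mul]
    change φ x i (Pi.single p 1) * β x p = _
    rw [mul_comm]
  obtain ⟨P, hP0, hP⟩ := var_coord (ρ := ρ) (d := d) (hyp_germ 𝒰 hL) _ hl2 hli2
    (fun s => gp 𝒰 δ (fun x => F x s)) hdimg φg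
  obtain ⟨Q, hQd, hPQ, hQ0⟩ := gp_surj 𝒰 P hP0
  set D := P.totalDegree with hD
  have hge : ∀ᶠ x in (𝒰 : Filter ℕ), D ≤ x :=
    Nat.hyperfilter_le_atTop (eventually_ge_atTop D)
  have hex : ∀ x, ∃ b : Fin m → Fin N → k, (Q x ≠ 0 ∧ D ≤ x) →
      ((∀ s, eval (fun i => ∑ j, algebraMap k Cc (b i j) * l x j) (F x s) = 0) ∧
      (∀ R : Submodule k (Fin m → k),
        Trans k (F x) (fun i => ∑ j, algebraMap k Cc (b i j) * l x j) R → finrank k R ≤ ρ) ∧
      eval (fun i => φ x i (fun p => b p.1 p.2)) (Q x) ≠ 0) := by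
    intro x
    by_cases hx : Q x ≠ 0 ∧ D ≤ x
    · obtain ⟨b, h1, h2, h3⟩ := hbad x (Q x) hx.1 ((hQd x).trans hx.2)
      exact ⟨b, fun _ => ⟨h1, h2, h3⟩⟩
    · exact ⟨0, fun h => absurd h hx⟩
  choose b hb using hex
  have hgood : ∀ᶠ x in (𝒰 : Filter ℕ), (Q x ≠ 0 ∧ D ≤ x) := hQ0.and hge
  have hev : ∀ z : ℕ → Fin m → Cc, ∀ s, eval (fun i => ge 𝒰 Cc (fun x => z x i))
      (gp 𝒰 δ (fun x => F x s)) = ge 𝒰 Cc (fun x => eval (z x) (F x s)) := fun z s =>
    eval_gp 𝒰 (Q := fun x => F x s) (fun x => hFδ x s) z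
  have hyy : ∀ i, ∑ j, algebraMap (GE 𝒰 k) (GE 𝒰 Cc) (ge 𝒰 k (fun x => b x i j)) *
      ge 𝒰 Cc (fun x => l x j) = ge 𝒰 Cc (fun x => ∑ j, algebraMap k Cc (b x i j) * l x j) :=
    fun i => hpt (fun j x => b x i j)
  have h1 := hP (fun i j => ge 𝒰 k (fun x => b x i j)) (by
    intro s
    simp only [hyy]
    rw [hev (fun x i => ∑ j, algebraMap k Cc (b x i j) * l x j) s, ge_eq_zero]
    exact hgood.mono fun x hx => (hb x hx).1 s) (by
    intro R hR
    -- representatives of a basis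
    let cB := finBasis (GE 𝒰 k) R
    choose C hC using fun b i => ge_surj 𝒰 k ((cB b : Fin m → GE 𝒰 k) i)
    have e1 : ∀ᶠ x in (𝒰 : Filter ℕ), ∀ c : Fin (finrank (GE 𝒰 k) R) → k,
        (∀ i, ∑ b, algebraMap k k (c b) * C b i x = 0) → c = 0 := by
      refine ev_li 𝒰 (fun b (i : Fin m) => C b i) fun c hc => ?_
      funext b
      refine (Fintype.linearIndependent_iff.1 cB.linearIndependent) c ?_ b
      apply Subtype.ext
      funext i
      simp only [Submodule.coe_sum, Submodule.coe_smul, Finset.sum_apply, Pi.smul_apply,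
        smul_eq_mul, ← hC]
      have h1 := hc i
      have h2 : ∀ z : GE 𝒰 k, geMap 𝒰 (algebraMap k k) z = z := by
        intro z
        obtain ⟨z', rfl⟩ := ge_surj 𝒰 k z
        rfl
      simp only [h2] at h1
      exact h1
    have e2 : ∀ᶠ x in (𝒰 : Filter ℕ), ∀ s, ∀ e : Fin (finrank (GE 𝒰 k) R) → Cc,
        eval (fun i => ∑ j, algebraMap k Cc (b x i j) * l x j +
          ∑ b, e b * algebraMap k Cc (C b i x)) (F x s) = 0 := by
      rw [eventually_all]
      intro s
      by_contra hcon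
      rw [← Ultrafilter.eventually_not] at hcon
      have h1 : ∀ x, ∃ e : Fin (finrank (GE 𝒰 k) R) → Cc,
          (¬ ∀ e : Fin (finrank (GE 𝒰 k) R) → Cc,
            eval (fun i => ∑ j, algebraMap k Cc (b x i j) * l x j +
              ∑ b, e b * algebraMap k Cc (C b i x)) (F x s) = 0) →
          eval (fun i => ∑ j, algebraMap k Cc (b x i j) * l x j +
            ∑ b, e b * algebraMap k Cc (C b i x)) (F x s) ≠ 0 := by
        intro x
        by_cases hx : ∀ e : Fin (finrank (GE 𝒰 k) R) → Cc,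
            eval (fun i => ∑ j, algebraMap k Cc (b x i j) * l x j +
              ∑ b, e b * algebraMap k Cc (C b i x)) (F x s) = 0
        · exact ⟨0, fun h => absurd hx h⟩
        · obtain ⟨e, he⟩ := not_forall.1 hx
          exact ⟨e, fun _ => he⟩
      choose e he using h1
      have h2 := hR s (∑ b, ge 𝒰 Cc (fun x => e x b) •
        fun i => algebraMap (GE 𝒰 k) (GE 𝒰 Cc) ((cB b : Fin m → GE 𝒰 k) i))
        (Submodule.sum_mem _ fun b _ => Submodule.smul_mem _ _ (Submodule.subset_span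
          ⟨_, (cB b).2, rfl⟩))
      have h3 : (fun i => ∑ j, algebraMap (GE 𝒰 k) (GE 𝒰 Cc) (ge 𝒰 k (fun x => b x i j)) *
          ge 𝒰 Cc (fun x => l x j) + (∑ b, ge 𝒰 Cc (fun x => e x b) •
        fun i => algebraMap (GE 𝒰 k) (GE 𝒰 Cc) ((cB b : Fin m → GE 𝒰 k) i)) i) =
          fun i => ge 𝒰 Cc (fun x => ∑ j, algebraMap k Cc (b x i j) * l x j +
            ∑ b, e x b * algebraMap k Cc (C b i x)) := by
        funext i
        rw [hyy, Finset.sum_apply]
        have h4 : ∀ b, (ge 𝒰 Cc (fun x => e x b) • fun i => algebraMap (GE 𝒰 k) (GE 𝒰 Cc)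
            ((cB b : Fin m → GE 𝒰 k) i)) i =
              ge 𝒰 Cc (fun x => e x b * algebraMap k Cc (C b i x)) := by
          intro b
          rw [Pi.smul_apply, smul_eq_mul, ← hC]
          change ge 𝒰 Cc _ * geMap 𝒰 (algebraMap k Cc) _ = _
          rw [geMap_ge, ← map_mul]
          rfl
        rw [Finset.sum_congr rfl fun b _ => h4 b, ← map_sum, ← map_add]
        congr 1
        funext x
        rw [Pi.add_apply, Finset.sum_apply]
      rw [h3, hev (fun x i => ∑ j, algebraMap k Cc (b x i j) * l x j +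
            ∑ b, e x b * algebraMap k Cc (C b i x)) s, ge_eq_zero] at h2
      obtain ⟨x, hx1, hx2⟩ := (hcon.and h2).exists
      exact he x hx1 hx2
    obtain ⟨x, ⟨hx1, hx2⟩, hx3⟩ := ((e1.and e2).and hgood).exists
    have hlix : LinearIndependent k (fun b i => C b i x) := by
      rw [Fintype.linearIndependent_iff]
      intro c hc b
      refine congrFun (hx1 c fun i => ?_) b
      have h1 := congrFun hc i
      rw [Finset.sum_apply, Pi.zero_apply] at h1
      exact h1
    have h5 := (hb x hx3).2.1 (Submodule.span k (Set.range fun b i => C b i x)) (by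
      intro s c hc
      obtain ⟨e, he⟩ := RE_span _ hc
      have h1 := hx2 s e
      simp only [← he] at h1
      exact h1)
    rwa [finrank_span_eq_card hlix, Fintype.card_fin] at h5)
  have h2 : eval (fun i => φg i (fun p => ge 𝒰 k (fun x => b x p.1 p.2))) P =
      ge 𝒰 k (fun x => eval (fun i => φ x i (fun p => b x p.1 p.2)) (Q x)) := by
    have h3 : (fun i => φg i (fun p => ge 𝒰 k (fun x => b x p.1 p.2))) =
        fun i => ge 𝒰 k (fun x => φ x i (fun p => b x p.1 p.2)) := by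
      funext i
      exact hφg i (fun x p => b x p.1 p.2)
    rw [h3, hPQ]
    exact eval_gp 𝒰 hQd _
  rw [h2, ge_eq_zero] at h1
  obtain ⟨x, hx1, hx2⟩ := (h1.and hgood).exists
  exact (hb x hx2).2.2 hx1

end Pool.Agent.H443.VD
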