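import Pool.Agent.H443.VD.Fin
import Pool.Agent.H443.VD.Un
import Pool.Agent.H443.VD.Cu

/-!
# Uniform bounds: dimension and counting
-/

set_option autoImplicit false

namespace Pool.Agent.H443.VD
open MvPolynomial Module Filter
open Pool.Agent.W254.PA (Hyp)
open Pool.Agent.Y787.AS

/-- finitely many equations suffice, with a uniform bound for their number -/
theorem exists_fin {E : Type} [Field E] {m δ : ℕ} (𝓕 : Set (MvPolynomial (Fin m) E))
    (h : ∀ F ∈ 𝓕, F.totalDegree ≤ δ) :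
    ∃ F : Fin ((exq (Fin m) δ).card) → MvPolynomial (Fin m) E, (∀ s, (F s).totalDegree ≤ δ) ∧
      ∀ z, (∀ s, eval z (F s) = 0) ↔ ∀ G ∈ 𝓕, eval z G = 0 := by
  classical
  have h1 : Submodule.span E 𝓕 ≤ Submodule.span E
      (((exq (Fin m) δ).image fun s => (monomial s (1 : E) : MvPolynomial (Fin m) E)) :
        Set (MvPolynomial (Fin m) E)) := by
    rw [Submodule.span_le]
    intro F hF
    rw [SetLike.mem_coe]
    rw [F.as_sum]
    refine Submodule.sum_mem _ fun s hs => ?_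
    have h2 : monomial s (coeff s F) = (coeff s F) • (monomial s (1 : E) : MvPolynomial (Fin m) E) := by
      rw [smul_monomial, smul_eq_mul, mul_one]
    rw [h2]
    refine Submodule.smul_mem _ _ (Submodule.subset_span ?_)
    rw [Finset.coe_image]
    exact ⟨s, Finset.mem_coe.2 (mem_exq.2 (le_of_deg (h F hF) (MvPolynomial.mem_support_iff.1 hs))),
      rfl⟩
  have hfin : FiniteDimensional E (Submodule.span E
      (((exq (Fin m) δ).image fun s => (monomial s (1 : E) : MvPolynomial (Fin m) E)) :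
        Set (MvPolynomial (Fin m) E))) := FiniteDimensional.span_of_finite E (Finset.finite_toSet _)
  have h2 : finrank E (Submodule.span E 𝓕) ≤ (exq (Fin m) δ).card :=
    (Submodule.finrank_mono h1).trans ((finrank_span_finset_le_card _).trans
      Finset.card_image_le)
  have hfin2 : FiniteDimensional E (Submodule.span E 𝓕) :=
    Submodule.finiteDimensional_of_le h1
  obtain ⟨f, hf1, hf2, -⟩ := Submodule.exists_fun_fin_finrank_span_eq E 𝓕
  refine ⟨fun s => if hs : (s : ℕ) < finrank E (Submodule.span E 𝓕) then f ⟨s, hs⟩ else 0, ?_, ?_⟩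
  · intro s
    dsimp only
    split_ifs with hs
    · exact h _ (hf1 _)
    · rw [totalDegree_zero]; exact Nat.zero_le _
  · intro z
    constructor
    · intro hz G hG
      have h3 : G ∈ Submodule.span E (Set.range f) := by
        rw [hf2]
        exact Submodule.subset_span hG
      clear hG
      induction h3 using Submodule.span_induction with
      | mem x hx =>
        obtain ⟨s, rfl⟩ := hx
        have := hz ⟨s, s.2.trans_le h2⟩
        simp only [s.2, dite_true] at this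
        exact this
      | zero => exact map_zero _
      | add x y _ _ hx hy => rw [map_add, hx, hy, add_zero]
      | smul a x _ hx => rw [smul_eval, hx, mul_zero]
    · intro hz s
      dsimp only
      split_ifs with hs
      · exact hz _ (hf1 _)
      · exact map_zero _

/-- algebraic sets of dimension at most `d` and complexity at most `δ` -/
def IsVar {E : Type} [Field E] {m : ℕ} (d δ : ℕ) (V : Set (Fin m → E)) : Prop :=
  (∃ 𝓕 : Set (MvPolynomial (Fin m) E), (∀ F ∈ 𝓕, F.totalDegree ≤ δ) ∧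
    V = {z | ∀ F ∈ 𝓕, eval z F = 0}) ∧
  ∀ e : Fin (d + 1) → Fin m, ∃ P : MvPolynomial (Fin (d + 1)) E, P ≠ 0 ∧ P.totalDegree ≤ δ ∧
    ∀ z ∈ V, eval (fun a => z (e a)) P = 0

/-- `V` contains the translate -/
def TransV (k : Type) {E : Type} [Field k] [Field E] [Algebra k E] {m : ℕ} (V : Set (Fin m → E))
    (y : Fin m → E) (R : Submodule k (Fin m → k)) : Prop :=
  ∀ c ∈ Submodule.span E {x : Fin m → E | ∃ v ∈ R, x = fun i => algebraMap k E (v i)}, y + c ∈ V

theorem IsVar.fin {E : Type} [Field E] {m : ℕ} {d δ : ℕ} {V : Set (Fin m → E)}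
    (h : IsVar d δ V) : ∃ F : Fin ((exq (Fin m) δ).card) → MvPolynomial (Fin m) E,
      (∀ s, (F s).totalDegree ≤ δ) ∧ DimD F d δ ∧ ∀ z, z ∈ V ↔ ∀ s, eval z (F s) = 0 := by
  obtain ⟨⟨𝓕, h1, h2⟩, h3⟩ := h
  obtain ⟨F, h4, h5⟩ := exists_fin 𝓕 h1
  have h6 : ∀ z, z ∈ V ↔ ∀ s, eval z (F s) = 0 := by
    intro z
    rw [h5, h2]
    rfl
  refine ⟨F, h4, fun e => ?_, h6⟩
  obtain ⟨P, hP0, hPd, hP⟩ := h3 e
  exact ⟨P, hP0, hPd, fun z hz => hP z ((h6 z).2 hz)⟩

theorem trans_iff {k E : Type} [Field k] [Field E] [Algebra k E] {m r : ℕ} {V : Set (Fin m → E)}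
    {F : Fin r → MvPolynomial (Fin m) E} (h : ∀ z, z ∈ V ↔ ∀ s, eval z (F s) = 0)
    (y : Fin m → E) (R : Submodule k (Fin m → k)) : TransV k V y R ↔ Trans k F y R :=
  ⟨fun h1 s c hc => (h _).1 (h1 c hc) s, fun h1 c hc => (h _).2 fun s => h1 s c hc⟩

section general

variable {k Cc : Type} [Field k] [Field Cc] [Algebra k Cc] [CharZero k] [CharZero Cc]

theorem unifV_coord {Lt : Submodule k Cc} (hL : Hyp Lt)
    (m N d δ ρ : ℕ) : ∃ B : ℕ, ∀ l : Fin N → Cc, (∀ j, l j ∈ Lt) → LinearIndependent k l →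
    ∀ V : Set (Fin m → Cc), IsVar d δ V →
    ∀ φ : Fin (d * (d + 1) + ρ * (N - (d + 1)) + 1) → ((Fin m × Fin N → k) →ₗ[k] k),
    ∃ P : MvPolynomial (Fin (d * (d + 1) + ρ * (N - (d + 1)) + 1)) k, P ≠ 0 ∧ P.totalDegree ≤ B ∧
      ∀ b : Fin m → Fin N → k,
      (fun i => ∑ j, algebraMap k Cc (b i j) * l j) ∈ V →
      (∀ R : Submodule k (Fin m → k),
        TransV k V (fun i => ∑ j, algebraMap k Cc (b i j) * l j) R → finrank k R ≤ ρ) →
      eval (fun i => φ i (fun p => b p.1 p.2)) P = 0 := by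
  obtain ⟨B, hB⟩ := unif_coord hL m N ((exq (Fin m) δ).card) d δ ρ
  refine ⟨B, fun l hl hli V hV φ => ?_⟩
  obtain ⟨F, h1, h2, h3⟩ := hV.fin
  obtain ⟨P, hP0, hPd, hP⟩ := hB l hl hli F h1 h2 φ
  refine ⟨P, hP0, hPd, fun b hb hb' => hP b ((h3 _).1 hb) fun R hR => hb' R ?_⟩
  exact (trans_iff h3 _ _).2 hR

/-- **Dimension, uniform.** -/
theorem unifV_dim {Lt : Submodule k Cc} (hL : Hyp Lt) (m N d δ ρ : ℕ) : ∃ B : ℕ,
    ∀ W : Submodule k Cc, finrank k W = N → FiniteDimensional k W → W ≤ Lt →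
    ∀ V : Set (Fin m → Cc), IsVar d δ V →
    ∀ φ : Fin (d * (d + 1) + ρ * (N - (d + 1)) + 1) → ((Fin m → W) →ₗ[k] k),
    ∃ P : MvPolynomial (Fin (d * (d + 1) + ρ * (N - (d + 1)) + 1)) k, P ≠ 0 ∧ P.totalDegree ≤ B ∧
      ∀ y : Fin m → W, (fun i => (y i : Cc)) ∈ V →
      (∀ R : Submodule k (Fin m → k), TransV k V (fun i => (y i : Cc)) R → finrank k R ≤ ρ) →
      eval (fun i => φ i y) P = 0 := by
  obtain ⟨B, hB⟩ := unifV_coord hL m N d δ ρ
  refine ⟨B, ?_⟩
  rintro W rfl _ hW V hV φ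
  obtain ⟨P, h0, h1, h2⟩ := hB (fun j => (Module.finBasis k W j : Cc))
    (fun j => hW (Module.finBasis k W j).2)
    ((Module.finBasis k W).linearIndependent.map' W.subtype
      (LinearMap.ker_eq_bot.2 W.subtype_injective)) V hV (fun i => φ i ∘ₗ mkT m)
  refine ⟨P, h0, h1, fun y hy ht => ?_⟩
  have h3 : (fun i => ∑ j, algebraMap k Cc ((Module.finBasis k W).repr (y i) j) *
      (Module.finBasis k W j : Cc)) = fun i => (y i : Cc) := by
    funext i
    have h4 := congrArg (fun w : W => (w : Cc)) ((Module.finBasis k W).sum_repr (y i))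
    simp only [Submodule.coe_sum, Submodule.coe_smul, Algebra.smul_def] at h4
    exact h4
  have h5 : mkT (k := k) (W := W) m (fun p => (Module.finBasis k W).repr (y p.1) p.2) = y := by
    funext i
    exact (Module.finBasis k W).sum_repr (y i)
  have h6 := h2 (fun i j => (Module.finBasis k W).repr (y i) j) (by
    rw [h3]; exact hy) (by rw [h3]; exact ht)
  simp only [LinearMap.comp_apply, h5] at h6
  exact h6

/-- **Counting, uniform.** -/
theorem unifV_count {Lt : Submodule k Cc} (hL : Hyp Lt) (m N d δ ρ : ℕ) : ∃ κ : ℕ,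
    ∀ l : Fin N → Cc, (∀ j, l j ∈ Lt) → LinearIndependent k l →
    ∀ V : Set (Fin m → Cc), IsVar d δ V → ∀ A : Finset k, A.Nonempty →
    Set.ncard {b : Fin m → Fin N → k | (∀ i j, b i j ∈ A) ∧
      (fun i => ∑ j, algebraMap k Cc (b i j) * l j) ∈ V ∧
      ∀ R : Submodule k (Fin m → k),
        TransV k V (fun i => ∑ j, algebraMap k Cc (b i j) * l j) R → finrank k R ≤ ρ} ≤
      κ * A.card ^ (d * (d + 1) + ρ * (N - (d + 1))) := by
  classical
  obtain ⟨B, hB⟩ := unifV_coord hL m N d δ ρ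
  obtain ⟨κ, hκ⟩ := count_unif' k (Fin m × Fin N) (d * (d + 1) + ρ * (N - (d + 1))) B
  refine ⟨κ, fun l hl hli V hV A hA => ?_⟩
  set T := {b : Fin m → Fin N → k | (∀ i j, b i j ∈ A) ∧
      (fun i => ∑ j, algebraMap k Cc (b i j) * l j) ∈ V ∧
      ∀ R : Submodule k (Fin m → k),
        TransV k V (fun i => ∑ j, algebraMap k Cc (b i j) * l j) R → finrank k R ≤ ρ} with hT
  have hTf : T.Finite := by
    refine Set.Finite.subset (Finset.finite_toSet
      (Fintype.piFinset fun _ : Fin m => Fintype.piFinset fun _ : Fin N => A)) ?_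
    intro b hb
    rw [Finset.mem_coe, Fintype.mem_piFinset]
    intro i
    rw [Fintype.mem_piFinset]
    exact fun j => hb.1 i j
  rw [Set.ncard_eq_toFinset_card _ hTf]
  let g : (Fin m → Fin N → k) → (Fin m × Fin N → k) := fun b p => b p.1 p.2
  have hg : Function.Injective g := by
    intro A A' h
    funext i j
    exact congrFun h (i, j)
  rw [← Finset.card_image_of_injective _ hg]
  refine hκ {z | (fun i j => z (i, j)) ∈ T} ?_ A hA _ ?_
  · intro e
    obtain ⟨P, h0, h1, h2⟩ := hB l hl hli V hV (fun a => LinearMap.proj (e a))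
    exact ⟨P, h0, h1, fun x hx => h2 (fun i j => x (i, j)) hx.2.1 hx.2.2⟩
  · intro z hz
    obtain ⟨b, hb, rfl⟩ := Finset.mem_image.1 hz
    rw [Set.Finite.mem_toFinset] at hb
    exact ⟨hb, fun p => hb.1 _ _⟩

end general

end Pool.Agent.H443.VD
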