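import Pool.Graph.R_seed8.Y787.AS.Step
import Pool.Graph.R_seed8.Y787.AS.Abs

/-!
# The linear subgroup theorem for subspaces of arbitrary dimension from the case of hyperplanes
-/

set_option autoImplicit false

namespace Pool.Agent.H443.VD
open Module
open Pool.Agent.W254.PA (Hyp)
open Pool.Agent.Y787.AS

variable {K E : Type} [Field K] [Field E] [Algebra K E]

/-- the extension of scalars of a functional -/
noncomputable def ex {V : Type} [AddCommGroup V] [Module K V] (c : V →ₗ[K] K) : V →ₗ[K] E :=
  (Algebra.linearMap K E) ∘ₗ c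

theorem ex_apply {V : Type} [AddCommGroup V] [Module K V] (c : V →ₗ[K] K) (v : V) :
    (ex c : V →ₗ[K] E) v = algebraMap K E (c v) := rfl

/-- precomposition, over `E` -/
noncomputable def pre {V W : Type} [AddCommGroup V] [Module K V] [AddCommGroup W] [Module K W]
    (f : W →ₗ[K] V) : (V →ₗ[K] E) →ₗ[E] (W →ₗ[K] E) where
  toFun a := a ∘ₗ f
  map_add' a b := by ext; rfl
  map_smul' c a := by ext; rfl

theorem pre_apply {V W : Type} [AddCommGroup V] [Module K V] [AddCommGroup W] [Module K W]
    (f : W →ₗ[K] V) (a : V →ₗ[K] E) (w : W) : pre f a w = a (f w) := rfl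

/-- precomposition, over `K` -/
noncomputable def preK {V W : Type} [AddCommGroup V] [Module K V] [AddCommGroup W] [Module K W]
    (f : W →ₗ[K] V) : (V →ₗ[K] E) →ₗ[K] (W →ₗ[K] E) where
  toFun a := a ∘ₗ f
  map_add' a b := by ext; rfl
  map_smul' c a := by ext; rfl

theorem preK_apply {V W : Type} [AddCommGroup V] [Module K V] [AddCommGroup W] [Module K W]
    (f : W →ₗ[K] V) (a : V →ₗ[K] E) (w : W) : preK f a w = a (f w) := rfl

/-- the functions on a basis -/
theorem hom_basis {V : Type} [AddCommGroup V] [Module K V] {s : ℕ} (f : Basis (Fin s) K V)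
    (a : V →ₗ[K] E) : a = ∑ i, a (f i) • (ex (f.coord i) : V →ₗ[K] E) := by
  apply f.ext
  intro j
  rw [LinearMap.sum_apply]
  rw [Finset.sum_eq_single j]
  · rw [LinearMap.smul_apply, ex_apply, Basis.coord_apply, Basis.repr_self,
      Finsupp.single_eq_same, map_one, smul_eq_mul, mul_one]
  · intro i _ hi
    rw [LinearMap.smul_apply, ex_apply, Basis.coord_apply, Basis.repr_self,
      Finsupp.single_eq_of_ne hi, map_zero, smul_zero]
  · intro h; exact absurd (Finset.mem_univ _) h

instance homFinite {V : Type} [AddCommGroup V] [Module K V] [FiniteDimensional K V] :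
    FiniteDimensional E (V →ₗ[K] E) := by
  let f := finBasis K V
  let Φ : (V →ₗ[K] E) →ₗ[E] (Fin (finrank K V) → E) :=
    { toFun := fun a i => a (f i)
      map_add' := fun a b => by funext i; rfl
      map_smul' := fun c a => by funext i; rfl }
  refine Module.Finite.of_injective Φ ?_
  intro a b h
  apply f.ext
  intro i
  exact congrFun h i

theorem finrank_hom {V : Type} [AddCommGroup V] [Module K V] [FiniteDimensional K V] :
    finrank E (V →ₗ[K] E) = finrank K V := by
  let f := finBasis K V
  let Φ : (V →ₗ[K] E) ≃ₗ[E] (Fin (finrank K V) → E) :=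
    { toFun := fun a i => a (f i)
      map_add' := fun a b => by funext i; rfl
      map_smul' := fun c a => by funext i; rfl
      invFun := fun x => ∑ i, x i • (ex (f.coord i) : V →ₗ[K] E)
      left_inv := fun a => (hom_basis f a).symm
      right_inv := fun x => by
        funext j
        change (∑ i, x i • (ex (f.coord i) : V →ₗ[K] E)) (f j) = x j
        rw [LinearMap.sum_apply, Finset.sum_eq_single j]
        · rw [LinearMap.smul_apply, ex_apply, Basis.coord_apply, Basis.repr_self,
            Finsupp.single_eq_same, map_one, smul_eq_mul, mul_one]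
        · intro i _ hi
          rw [LinearMap.smul_apply, ex_apply, Basis.coord_apply, Basis.repr_self,
            Finsupp.single_eq_of_ne hi, map_zero, smul_zero]
        · intro h; exact absurd (Finset.mem_univ _) h }
  rw [Φ.finrank_eq, finrank_fintype_fun_eq_card, Fintype.card_fin]

/-- rank and nullity for a subspace -/
theorem split {F V W : Type} [Field F] [AddCommGroup V] [Module F V] [AddCommGroup W] [Module F W]
    (Φ : V →ₗ[F] W) (T : Submodule F V) [FiniteDimensional F T] :
    finrank F T = finrank F (T ⊓ LinearMap.ker Φ : Submodule F V) + finrank F (T.map Φ) := by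
  have h1 := LinearMap.finrank_range_add_finrank_ker (Φ.domRestrict T)
  have h2 : LinearMap.range (Φ.domRestrict T) = T.map Φ := by
    rw [LinearMap.range_domRestrict]
  have h3 : finrank F (LinearMap.ker (Φ.domRestrict T)) =
      finrank F (T ⊓ LinearMap.ker Φ : Submodule F V) := by
    rw [LinearMap.ker_domRestrict, ← Submodule.map_comap_subtype,
      Submodule.finrank_map_subtype_eq]
  rw [h2, h3] at h1
  omega

/-- a functional which kills the kernel of another one -/
theorem mul_of_ker {V : Type} [AddCommGroup V] [Module K V] (c : V →ₗ[K] K) (hc : c ≠ 0)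
    (b : V →ₗ[K] E) (hb : ∀ v, c v = 0 → b v = 0) : ∃ e : E, b = e • (ex c : V →ₗ[K] E) := by
  obtain ⟨v₀, hv₀⟩ : ∃ v, c v ≠ 0 := by
    by_contra h
    push Not at h
    exact hc (LinearMap.ext h)
  refine ⟨b v₀ * algebraMap K E (c v₀)⁻¹, ?_⟩
  ext v
  have h1 := hb (v - (c v * (c v₀)⁻¹) • v₀) (by
    rw [map_sub, map_smul, smul_eq_mul, mul_assoc, inv_mul_cancel₀ hv₀, mul_one, sub_self])
  rw [map_sub, map_smul, sub_eq_zero] at h1
  rw [h1, LinearMap.smul_apply, ex_apply, Algebra.smul_def, map_mul, smul_eq_mul]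
  ring

/-- the hyperplane property for spaces of homomorphisms -/
theorem hyp_hom {L : Submodule K E} (hL : Hyp L) {F : Type} [AddCommGroup F] [Module K F]
    [FiniteDimensional K F] (φ : (F →ₗ[K] E) →ₗ[E] E)
    (hind : ∀ c : F →ₗ[K] K, φ (ex c) = 0 → c = 0) (Y : Submodule K (F →ₗ[K] E))
    (hYf : Module.Finite K Y) (hY : ∀ b ∈ Y, φ b = 0 ∧ ∀ v, b v ∈ L) :
    finrank K Y ≤ finrank K F * (finrank K F - 1) := by
  classical
  have : Module.Free K Y := Module.Free.of_divisionRing K Y
  let f := finBasis K F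
  let w := finBasis K Y
  refine hL _ _ (fun i => φ (ex (f.coord i))) (fun i t => (w t : F →ₗ[K] E) (f i)) ?_ ?_ ?_ ?_
  · rw [Fintype.linearIndependent_iff]
    intro g hg i
    have h1 := hind (∑ i, g i • f.coord i) (by
      have h2 : (ex (∑ i, g i • f.coord i) : F →ₗ[K] E) =
          ∑ i, algebraMap K E (g i) • ex (f.coord i) := by
        ext v
        rw [ex_apply, LinearMap.sum_apply, LinearMap.sum_apply, map_sum]
        refine Finset.sum_congr rfl fun i _ => ?_
        rw [LinearMap.smul_apply, LinearMap.smul_apply, smul_eq_mul, map_mul, ex_apply,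
          smul_eq_mul]
      rw [h2, map_sum, ← hg]
      refine Finset.sum_congr rfl fun i _ => ?_
      rw [map_smul, smul_eq_mul, Algebra.smul_def])
    have h2 := LinearMap.congr_fun h1 (f i)
    rw [LinearMap.sum_apply, Finset.sum_eq_single i] at h2
    · simpa using h2
    · intro j _ hj
      rw [LinearMap.smul_apply, Basis.coord_apply, Basis.repr_self,
        Finsupp.single_eq_of_ne hj, smul_zero]
    · intro h; exact absurd (Finset.mem_univ _) h
  · intro i t
    exact (hY _ (w t).2).2 _
  · intro t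
    have h1 : φ (w t : F →ₗ[K] E) = 0 := (hY _ (w t).2).1
    rw [hom_basis f (w t : F →ₗ[K] E), map_sum] at h1
    rw [← h1]
    refine Finset.sum_congr rfl fun i _ => ?_
    rw [map_smul, smul_eq_mul, mul_comm]
  · rw [Fintype.linearIndependent_iff]
    intro g hg
    have h2 : ∑ t, g t • (w t : F →ₗ[K] E) = 0 := by
      apply f.ext
      intro i
      have h1 := congrFun hg i
      rw [Finset.sum_apply, Pi.zero_apply] at h1
      rw [LinearMap.sum_apply, LinearMap.zero_apply, ← h1]
      rfl
    have h3 : ∑ t, g t • w t = 0 := by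
      apply Subtype.ext
      rw [Submodule.coe_zero, Submodule.coe_sum]
      exact h2
    intro t
    have h4 := w.repr_sum_self g
    rw [h3, map_zero] at h4
    exact (congrFun h4 t).symm

section quot

variable {V Q : Type} [AddCommGroup V] [Module K V] [AddCommGroup Q] [Module K Q]

theorem pre_inj (π : V →ₗ[K] Q) (hπ : Function.Surjective π) :
    Function.Injective (pre (E := E) π) := by
  intro a b h
  ext q
  obtain ⟨v, rfl⟩ := hπ q
  exact LinearMap.congr_fun h v

theorem pre_range (π : V →ₗ[K] Q) (hπ : Function.Surjective π) (a : V →ₗ[K] E)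
    (ha : ∀ v, π v = 0 → a v = 0) : ∃ b : Q →ₗ[K] E, b ∘ₗ π = a := by
  obtain ⟨σ, hσ⟩ := LinearMap.exists_rightInverse_of_surjective π (LinearMap.range_eq_top.2 hπ)
  refine ⟨a ∘ₗ σ, ?_⟩
  ext v
  have h1 := ha (σ (π v) - v) (by
    rw [map_sub, sub_eq_zero]
    exact LinearMap.congr_fun hσ (π v))
  rw [map_sub, sub_eq_zero] at h1
  exact h1

theorem comapK (π : V →ₗ[K] Q) (hπ : Function.Surjective π) (F : Submodule K V)
    (hF : ∀ v, π v = 0 ↔ v ∈ F) (X : Submodule K (V →ₗ[K] E)) :
    (X ⊓ LinearMap.ker (preK (E := E) F.subtype) : Submodule K (V →ₗ[K] E)) =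
      (X.comap (preK π)).map (preK π) := by
  ext a
  constructor
  · rintro ⟨ha, ha'⟩
    obtain ⟨b, rfl⟩ := pre_range π hπ a (fun v hv =>
      LinearMap.congr_fun (LinearMap.mem_ker.1 ha') ⟨v, (hF v).1 hv⟩)
    exact ⟨b, ha, rfl⟩
  · rintro ⟨b, hb, rfl⟩
    refine ⟨hb, LinearMap.mem_ker.2 ?_⟩
    ext v
    change b (π (v : V)) = 0
    rw [(hF v).2 v.2, map_zero]

theorem comapE (π : V →ₗ[K] Q) (hπ : Function.Surjective π) (F : Submodule K V)
    (hF : ∀ v, π v = 0 ↔ v ∈ F) (X : Submodule E (V →ₗ[K] E)) :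
    (X ⊓ LinearMap.ker (pre (E := E) F.subtype) : Submodule E (V →ₗ[K] E)) =
      (X.comap (pre π)).map (pre π) := by
  ext a
  constructor
  · rintro ⟨ha, ha'⟩
    obtain ⟨b, rfl⟩ := pre_range π hπ a (fun v hv =>
      LinearMap.congr_fun (LinearMap.mem_ker.1 ha') ⟨v, (hF v).1 hv⟩)
    exact ⟨b, ha, rfl⟩
  · rintro ⟨b, hb, rfl⟩
    refine ⟨hb, LinearMap.mem_ker.2 ?_⟩
    ext v
    change b (π (v : V)) = 0
    rw [(hF v).2 v.2, map_zero]

theorem finrank_map_inj {F V W : Type} [Field F] [AddCommGroup V] [Module F V] [AddCommGroup W]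
    [Module F W] (Φ : V →ₗ[F] W) (hΦ : Function.Injective Φ) (T : Submodule F V) :
    finrank F (T.map Φ) = finrank F T :=
  (LinearEquiv.finrank_eq (Submodule.equivMapOfInjective Φ hΦ T)).symm

end quot

theorem ker_dim {F : Type} [AddCommGroup F] [Module K F] [FiniteDimensional K F]
    (c : F →ₗ[K] K) (hc0 : c ≠ 0) : finrank K (LinearMap.ker c) + 1 = finrank K F := by
  have h1 := LinearMap.finrank_range_add_finrank_ker c
  have h2 : finrank K (LinearMap.range c) = 1 := by
    have h3 : LinearMap.range c = ⊤ := LinearMap.range_eq_top.2 (LinearMap.surjective hc0)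
    rw [h3, finrank_top, finrank_self]
  omega

/-- a minimal subspace to which not every functional extends -/
theorem exists_min {V : Type} [AddCommGroup V] [Module K V] [FiniteDimensional K V]
    (Θ : Submodule E (V →ₗ[K] E)) (hΘ : ∀ c : V →ₗ[K] K, (ex c : V →ₗ[K] E) ∈ Θ → c = 0)
    (hV : 0 < finrank K V) :
    ∃ (F : Submodule K V) (φ : (F →ₗ[K] E) →ₗ[E] E), 1 ≤ finrank K F ∧
      (∀ c : F →ₗ[K] K, φ (ex c) = 0 → c = 0) ∧
      (∀ a ∈ Θ, φ (pre F.subtype a) = 0) ∧
      finrank K F - 1 ≤ finrank E (Θ.map (pre F.subtype)) := by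
  classical
  have hall : ∃ F : Submodule K V, Θ.map (pre F.subtype) ≠ ⊤ := by
    by_contra hall
    push Not at hall
    have h1 : ∀ c : V →ₗ[K] K, c = 0 := by
      intro c
      apply hΘ
      have h2 : (ex c : V →ₗ[K] E) ∘ₗ (⊤ : Submodule K V).subtype ∈
          Θ.map (pre (⊤ : Submodule K V).subtype) := by
        rw [hall ⊤]
        exact Submodule.mem_top
      obtain ⟨a, ha, ha'⟩ := Submodule.mem_map.1 h2
      have h3 : a = ex c := by
        ext v
        exact LinearMap.congr_fun ha' ⟨v, Submodule.mem_top⟩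
      rwa [h3] at ha
    have h2 := h1 ((finBasis K V).coord ⟨0, hV⟩)
    have h3 := LinearMap.congr_fun h2 (finBasis K V ⟨0, hV⟩)
    simp at h3
  have hex : ∃ s, ∃ F : Submodule K V, finrank K F = s ∧ Θ.map (pre F.subtype) ≠ ⊤ := by
    obtain ⟨F, hF⟩ := hall
    exact ⟨_, F, rfl, hF⟩
  obtain ⟨F, hFs, hFΘ⟩ := Nat.find_spec hex
  have hmin : ∀ F' : Submodule K V, finrank K F' < finrank K F →
      Θ.map (pre F'.subtype) = ⊤ := by
    intro F' hF'
    by_contra hcon
    rw [hFs] at hF'
    exact Nat.find_min hex hF' ⟨F', rfl, hcon⟩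
  obtain ⟨φ, hφ0, hφ⟩ := Submodule.exists_le_ker_of_lt_top _ (lt_top_iff_ne_top.2 hFΘ)
  have hF1 : 1 ≤ finrank K F := by
    by_contra h0
    have h1 : finrank K F = 0 := by omega
    have h2 : Subsingleton F := finrank_zero_iff.1 h1
    apply hφ0
    ext b
    have : b = 0 := by
      ext v
      rw [Subsingleton.elim v 0, map_zero, map_zero]
    rw [this, map_zero, LinearMap.zero_apply]
  refine ⟨F, φ, hF1, ?_, fun a ha => hφ (Submodule.mem_map_of_mem ha), ?_⟩
  · intro c hc
    by_contra hc0
    apply hφ0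
    ext b
    rw [LinearMap.zero_apply]
    have hker := ker_dim c hc0
    have hF' : finrank K ((LinearMap.ker c).map F.subtype) < finrank K F := by
      rw [Submodule.finrank_map_subtype_eq]
      omega
    have h1 := hmin _ hF'
    have h2 : b ∘ₗ (Submodule.inclusion (Submodule.map_subtype_le F (LinearMap.ker c))) ∈
        Θ.map (pre ((LinearMap.ker c).map F.subtype).subtype) := by
      rw [h1]
      exact Submodule.mem_top
    obtain ⟨a, ha, ha'⟩ := Submodule.mem_map.1 h2
    obtain ⟨e, he⟩ := mul_of_ker c hc0 (b - pre F.subtype a) (by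
      intro v hv
      rw [LinearMap.sub_apply, sub_eq_zero]
      have h3 := LinearMap.congr_fun ha' ⟨F.subtype v, Submodule.mem_map_of_mem hv⟩
      exact h3.symm)
    have h4 : b = pre F.subtype a + e • ex c := by
      rw [← he]
      abel
    rw [h4, map_add, map_smul, hc, smul_zero, add_zero]
    exact hφ (Submodule.mem_map_of_mem ha)
  · obtain ⟨c, hc⟩ : ∃ c : F →ₗ[K] K, c ≠ 0 := by
      refine ⟨(finBasis K F).coord ⟨0, hF1⟩, fun h => ?_⟩
      have h3 := LinearMap.congr_fun h (finBasis K F ⟨0, hF1⟩)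
      simp at h3
    have hker := ker_dim c hc
    have hF' : finrank K ((LinearMap.ker c).map F.subtype) < finrank K F := by
      rw [Submodule.finrank_map_subtype_eq]
      omega
    have h1 := hmin _ hF'
    let inc := Submodule.inclusion (Submodule.map_subtype_le F (LinearMap.ker c))
    have h2 : (Θ.map (pre F.subtype)).map (pre (E := E) inc) = ⊤ := by
      rw [← h1, ← Submodule.map_comp]
      rfl
    have h3 := Submodule.finrank_map_le (pre (E := E) inc) (Θ.map (pre F.subtype))
    rw [h2, finrank_top, finrank_hom, Submodule.finrank_map_subtype_eq] at h3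
    omega

/-- **The linear subgroup theorem for subspaces without rational points.** -/
theorem lst_aux {L : Submodule K E} (hL : Hyp L) (n : ℕ) :
    ∀ (V : Type) [AddCommGroup V] [Module K V] [FiniteDimensional K V], finrank K V ≤ n →
    ∀ Θ : Submodule E (V →ₗ[K] E), (∀ c : V →ₗ[K] K, (ex c : V →ₗ[K] E) ∈ Θ → c = 0) →
    ∀ X : Submodule K (V →ₗ[K] E), FiniteDimensional K X →
      (∀ a ∈ X, a ∈ Θ ∧ ∀ v, a v ∈ L) → finrank K X ≤ finrank E Θ * (finrank E Θ + 1) := by
  classical
  induction n with
  | zero =>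
    intro V _ _ _ hV Θ _ X _ hX
    have h1 : Subsingleton V := finrank_zero_iff.1 (Nat.le_zero.1 hV)
    have h2 : X = ⊥ := by
      rw [Submodule.eq_bot_iff]
      intro a _
      ext v
      rw [Subsingleton.elim v 0, map_zero, map_zero]
    rw [h2, finrank_bot]
    exact Nat.zero_le _
  | succ n ih =>
    intro V _ _ _ hV Θ hΘ X hXf hX
    rcases Nat.eq_zero_or_pos (finrank K V) with h0 | h0
    · exact ih V (by omega) Θ hΘ X hXf hX
    obtain ⟨F, φ, hF1, hind, hφ, hdim⟩ := exists_min Θ hΘ h0
    have h1 := split (preK (E := E) F.subtype) X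
    have h2 := split (pre (E := E) F.subtype) Θ
    have hXF : finrank K (X.map (preK (E := E) F.subtype)) ≤ finrank K F * (finrank K F - 1) := by
      refine hyp_hom hL φ hind _ inferInstance ?_
      intro b hb
      obtain ⟨a, ha, rfl⟩ := Submodule.mem_map.1 hb
      exact ⟨hφ a (hX a ha).1, fun v => (hX a ha).2 _⟩
    obtain ⟨Q, iQ1, iQ2, iQ3, π, hπ, hπF, hQ⟩ : ∃ (Q : Type) (_ : AddCommGroup Q)
        (_ : Module K Q) (_ : FiniteDimensional K Q) (π : V →ₗ[K] Q),
        Function.Surjective π ∧ (∀ v, π v = 0 ↔ v ∈ F) ∧ finrank K Q + finrank K F = finrank K V :=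
      ⟨V ⧸ F, inferInstance, inferInstance, inferInstance, F.mkQ, F.mkQ_surjective, fun v => by
        rw [Submodule.mkQ_apply, Submodule.Quotient.mk_eq_zero], Submodule.finrank_quotient_add_finrank F⟩
    rw [comapK π hπ F hπF, finrank_map_inj (preK (E := E) π) (pre_inj (E := E) π hπ)] at h1
    rw [comapE π hπ F hπF, finrank_map_inj _ (pre_inj (E := E) π hπ)] at h2
    have h3 := ih Q (by omega) (Θ.comap (pre π)) (by
      intro c hc
      have h4 := hΘ (c ∘ₗ π) hc
      ext q
      obtain ⟨v, rfl⟩ := hπ q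
      exact LinearMap.congr_fun h4 v) (X.comap (preK π)) (by
      have : FiniteDimensional K (Submodule.map (preK (E := E) π) (X.comap (preK π))) := by
        rw [← comapK π hπ F hπF]
        exact Submodule.finiteDimensional_of_le inf_le_left
      exact Module.Finite.equiv (Submodule.equivMapOfInjective (preK (E := E) π)
        (pre_inj (E := E) π hπ) (X.comap (preK π))).symm) (by
      intro a ha
      refine ⟨(hX _ ha).1, fun q => ?_⟩
      obtain ⟨v, rfl⟩ := hπ q
      exact (hX _ ha).2 v)
    set δ' := finrank E (Θ.comap (pre (E := E) π))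
    set t := finrank E (Θ.map (pre (E := E) F.subtype))
    rw [h1, h2]
    obtain ⟨s, hs⟩ : ∃ s, finrank K F = s + 1 := ⟨finrank K F - 1, by omega⟩
    rw [hs] at hXF hdim
    simp only [Nat.add_sub_cancel] at hXF hdim
    nlinarith
end Pool.Agent.H443.VD
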