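import Pool.Agent.H443.VD.Lst

/-!
# Rational points of subspaces and the linear subgroup theorem in coordinates
-/

set_option autoImplicit false

namespace Pool.Agent.H443.VD
open Module
open Pool.Agent.W254.PA (Hyp)
open Pool.Agent.Y787.AS

variable {K E : Type} [Field K] [Field E] [Algebra K E] {m : ℕ}

/-- the extension of scalars of a vector -/
def co (E : Type) [Field E] [Algebra K E] (c : Fin m → K) : Fin m → E :=
  fun i => algebraMap K E (c i)

/-- rational points -/
def rat (Θ : Submodule E (Fin m → E)) : Submodule K (Fin m → K) where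
  carrier := {c | co E c ∈ Θ}
  add_mem' := fun {c c'} h h' => by
    have : co E (c + c') = co E c + co E c' := by
      funext i
      exact map_add _ _ _
    rw [Set.mem_ofPred_eq, this]
    exact Θ.add_mem h h'
  zero_mem' := by
    have : co E (0 : Fin m → K) = 0 := by
      funext i
      exact map_zero _
    rw [Set.mem_ofPred_eq, this]
    exact Θ.zero_mem
  smul_mem' := fun p c h => by
    have : co E (p • c) = algebraMap K E p • co E c := by
      funext i
      exact map_mul _ _ _
    rw [Set.mem_ofPred_eq, this]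
    exact Θ.smul_mem _ h

theorem mem_rat {Θ : Submodule E (Fin m → E)} {c : Fin m → K} : c ∈ rat Θ ↔ co E c ∈ Θ := Iff.rfl

theorem co_mem_RE {R : Submodule K (Fin m → K)} {c : Fin m → K} (hc : c ∈ R) :
    co E c ∈ RE E R := Submodule.subset_span ⟨c, hc, rfl⟩

theorem RE_le {R : Submodule K (Fin m → K)} {Θ : Submodule E (Fin m → E)}
    (h : ∀ c ∈ R, co E c ∈ Θ) : RE E R ≤ Θ := by
  refine Submodule.span_le.2 ?_
  rintro _ ⟨c, hc, rfl⟩
  exact h c hc

/-- the extension of a linear map -/
noncomputable def UE {v : ℕ} (E : Type) [Field E] [Algebra K E] (u : (Fin m → K) →ₗ[K] (Fin v → K)) :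
    (Fin m → E) →ₗ[E] (Fin v → E) where
  toFun a e := ∑ i, a i * algebraMap K E (u (Pi.single i 1) e)
  map_add' a b := by
    funext e
    simp only [Pi.add_apply, add_mul, Finset.sum_add_distrib]
  map_smul' c a := by
    funext e
    simp only [Pi.smul_apply, smul_eq_mul, RingHom.id_apply, Finset.mul_sum, mul_assoc]

theorem UE_apply {v : ℕ} (u : (Fin m → K) →ₗ[K] (Fin v → K)) (a : Fin m → E) (e : Fin v) :
    UE E u a e = ∑ i, a i * algebraMap K E (u (Pi.single i 1) e) := rfl

theorem UE_co {v : ℕ} (u : (Fin m → K) →ₗ[K] (Fin v → K)) (c : Fin m → K) :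
    UE E u (co E c) = co E (u c) := by
  classical
  funext e
  rw [UE_apply]
  have h1 : c = ∑ i, c i • (Pi.single i 1 : Fin m → K) := by
    funext j
    rw [Finset.sum_apply, Finset.sum_eq_single j]
    · simp
    · intro i _ hi
      simp [Ne.symm hi]
    · intro h; exact absurd (Finset.mem_univ _) h
  conv_rhs => rw [h1, map_sum]
  rw [co, Finset.sum_apply, map_sum]
  refine Finset.sum_congr rfl fun i _ => ?_
  rw [map_smul, Pi.smul_apply, smul_eq_mul, map_mul]
  rfl

/-- adapted coordinates -/
theorem exists_co (R : Submodule K (Fin m → K)) :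
    ∃ (v : ℕ) (r : Fin v → Fin m → K) (u : (Fin m → K) →ₗ[K] (Fin v → K)),
      v + finrank K R = m ∧ (∀ e, u (r e) = Pi.single e 1) ∧ (∀ c, u c = 0 ↔ c ∈ R) ∧
      ∀ a : Fin m → E, UE E u a = 0 ↔ a ∈ RE E R := by
  classical
  obtain ⟨v, r, u, hv, -, hu0, hur, hdec⟩ := exists_adapted (⊤ : Submodule K (Fin m → K)) R le_top
  rw [finrank_top, finrank_fintype_fun_eq_card, Fintype.card_fin] at hv
  have hker : ∀ c, u c = 0 ↔ c ∈ R := by
    intro c
    refine ⟨fun h => ?_, hu0 c⟩
    have h1 := hdec c Submodule.mem_top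
    simpa [h] using h1
  refine ⟨v, r, u, hv, hur, hker, fun a => ⟨fun ha => ?_, fun ha => ?_⟩⟩
  · have h1 : a = ∑ i, a i • co E ((Pi.single i 1 : Fin m → K) -
        ∑ e, u (Pi.single i 1) e • r e) := by
      funext j
      rw [Finset.sum_apply]
      have h2 : ∀ i, (a i • co E ((Pi.single i 1 : Fin m → K) -
          ∑ e, u (Pi.single i 1) e • r e)) j = a i * (Pi.single i 1 : Fin m → E) j -
          ∑ e, a i * algebraMap K E (u (Pi.single i 1) e) * algebraMap K E (r e j) := by
        intro i
        rw [Pi.smul_apply, smul_eq_mul, co, Pi.sub_apply, map_sub, mul_sub, Finset.sum_apply,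
          map_sum, Finset.mul_sum]
        congr 1
        · congr 1
          rw [Pi.single_apply, Pi.single_apply]
          split_ifs
          · exact map_one _
          · exact map_zero _
        · refine Finset.sum_congr rfl fun e _ => ?_
          rw [Pi.smul_apply, smul_eq_mul, map_mul, mul_assoc]
      rw [Finset.sum_congr rfl fun i _ => h2 i, Finset.sum_sub_distrib, Finset.sum_comm]
      have h3 : ∑ i, a i * (Pi.single i 1 : Fin m → E) j = a j := by
        rw [Finset.sum_eq_single j]
        · simp
        · intro i _ hi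
          simp [Ne.symm hi]
        · intro h; exact absurd (Finset.mem_univ _) h
      have h4 : ∑ e, ∑ i, a i * algebraMap K E (u (Pi.single i 1) e) * algebraMap K E (r e j) =
          0 := by
        refine Finset.sum_eq_zero fun e _ => ?_
        rw [← Finset.sum_mul]
        have h5 := congrFun ha e
        rw [UE_apply] at h5
        rw [h5, Pi.zero_apply, zero_mul]
      rw [h3, h4, sub_zero]
    rw [h1]
    exact Submodule.sum_mem _ fun i _ => Submodule.smul_mem _ _
      (co_mem_RE (hdec _ Submodule.mem_top))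
  · have h1 : RE E R ≤ LinearMap.ker (UE E u) := by
      refine RE_le fun c hc => ?_
      rw [LinearMap.mem_ker, UE_co, hu0 c hc]
      funext e
      exact map_zero _
    exact LinearMap.mem_ker.1 (h1 ha)

theorem mem_of_RE {R : Submodule K (Fin m → K)} {c : Fin m → K} (h : co E c ∈ RE E R) : c ∈ R := by
  obtain ⟨v, r, u, -, -, h1, h2⟩ := exists_co (E := E) R
  rw [← h2, UE_co] at h
  rw [← h1]
  funext e
  have := congrFun h e
  exact (map_eq_zero_iff _ (algebraMap K E).injective).1 this

theorem UE_surj {v : ℕ} {u : (Fin m → K) →ₗ[K] (Fin v → K)} {r : Fin v → Fin m → K}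
    (hur : ∀ e, u (r e) = Pi.single e 1) : Function.Surjective (UE E u) := by
  classical
  intro x
  refine ⟨∑ e, x e • co E (r e), ?_⟩
  rw [map_sum]
  funext e
  rw [Finset.sum_apply, Finset.sum_eq_single e]
  · rw [map_smul, UE_co, hur, Pi.smul_apply, co, Pi.single_eq_same, map_one, smul_eq_mul, mul_one]
  · intro e' _ he'
    rw [map_smul, UE_co, hur, Pi.smul_apply, co, Pi.single_eq_of_ne (Ne.symm he'), map_zero,
      smul_zero]
  · intro h; exact absurd (Finset.mem_univ _) h

theorem finrank_RE (R : Submodule K (Fin m → K)) : finrank E (RE E R) = finrank K R := by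
  obtain ⟨v, r, u, h0, hur, h1, h2⟩ := exists_co (E := E) R
  have h3 := LinearMap.finrank_range_add_finrank_ker (UE E u)
  have h4 : LinearMap.ker (UE E u) = RE E R := by
    ext a
    rw [LinearMap.mem_ker]
    exact h2 a
  rw [LinearMap.range_eq_top.2 (UE_surj hur), finrank_top, h4, finrank_fintype_fun_eq_card,
    finrank_fintype_fun_eq_card, Fintype.card_fin, Fintype.card_fin] at h3
  omega

theorem RE_rat_le (Θ : Submodule E (Fin m → E)) : RE E (rat (K := K) Θ) ≤ Θ :=
  RE_le fun _ hc => hc

theorem finrank_rat_le (Θ : Submodule E (Fin m → E)) : finrank K (rat (K := K) Θ) ≤ finrank E Θ := by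
  rw [← finrank_RE (E := E)]
  exact Submodule.finrank_mono (RE_rat_le Θ)

/-- **The linear subgroup theorem for arbitrary subspaces.** -/
theorem lst {L : Submodule K E} (hL : Hyp L) (Θ : Submodule E (Fin m → E))
    (X : Submodule K (Fin m → E)) (hXf : FiniteDimensional K X)
    (hX : ∀ a ∈ X, a ∈ Θ ∧ ∀ i, a i ∈ L) :
    finrank K X ≤ finrank K (X ⊓ (RE E (rat (K := K) Θ)).restrictScalars K : Submodule K (Fin m → E)) +
      (finrank E Θ - finrank K (rat (K := K) Θ)) *
        (finrank E Θ - finrank K (rat (K := K) Θ) + 1) := by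
  classical
  obtain ⟨v, r, u, h0, hur, h1, h2⟩ := exists_co (E := E) (rat (K := K) Θ)
  let ρ : (Fin m → E) →ₗ[E] ((Fin v → K) →ₗ[K] E) :=
    { toFun := fun a =>
        { toFun := fun f => ∑ e, f e • UE E u a e
          map_add' := fun f g => by
            simp only [Pi.add_apply, add_smul, Finset.sum_add_distrib]
          map_smul' := fun c f => by
            simp only [Pi.smul_apply, smul_eq_mul, mul_smul, Finset.smul_sum, RingHom.id_apply] }
      map_add' := fun a b => by
        ext f
        simp [smul_add, Finset.sum_add_distrib]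
      map_smul' := fun c a => by
        refine LinearMap.ext fun f => ?_
        change ∑ e, f e • UE E u (c • a) e = c • ∑ e, f e • UE E u a e
        rw [Finset.smul_sum]
        refine Finset.sum_congr rfl fun e _ => ?_
        rw [map_smul, Pi.smul_apply, smul_comm] }
  let ρK : (Fin m → E) →ₗ[K] ((Fin v → K) →ₗ[K] E) :=
    { toFun := fun a => ρ a
      map_add' := fun a b => map_add ρ a b
      map_smul' := fun c a => by
        have h3 : c • a = algebraMap K E c • a := by
          funext i
          rw [Pi.smul_apply, Pi.smul_apply, Algebra.smul_def, smul_eq_mul]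
        rw [h3, map_smul, RingHom.id_apply]
        refine LinearMap.ext fun f => ?_
        rw [LinearMap.smul_apply, LinearMap.smul_apply, smul_eq_mul, Algebra.smul_def] }
  have hρ : ∀ a f, ρ a f = ∑ e, f e • UE E u a e := fun _ _ => rfl
  have hρs : ∀ a e, ρ a (Pi.single e 1) = UE E u a e := by
    intro a e
    rw [hρ, Finset.sum_eq_single e]
    · rw [Pi.single_eq_same, one_smul]
    · intro e' _ he'
      rw [Pi.single_eq_of_ne he', zero_smul]
    · intro h; exact absurd (Finset.mem_univ _) h
  have hρ0 : ∀ a, ρ a = 0 ↔ a ∈ RE E (rat (K := K) Θ) := by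
    intro a
    rw [← h2]
    constructor
    · intro h
      funext e
      rw [← hρs, h]
      rfl
    · intro h
      refine LinearMap.ext fun f => ?_
      rw [hρ, h]
      simp
  -- no rational points
  have h3 := lst_aux hL v (Fin v → K) (by rw [finrank_fintype_fun_eq_card, Fintype.card_fin])
    (Θ.map ρ) (by
      intro c hc
      obtain ⟨a, ha, ha'⟩ := Submodule.mem_map.1 hc
      set c' : Fin m → K := ∑ e, c (Pi.single e 1) • r e with hc'
      have e1 : UE E u a = co E (u c') := by
        funext e
        rw [← hρs, ha', ex_apply, hc', map_sum, co, Finset.sum_apply, Finset.sum_eq_single e]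
        · rw [map_smul, hur, Pi.smul_apply, Pi.single_eq_same, smul_eq_mul, mul_one]
        · intro e' _ he'
          rw [map_smul, hur, Pi.smul_apply, Pi.single_eq_of_ne (Ne.symm he'), smul_zero]
        · intro h; exact absurd (Finset.mem_univ _) h
      have e2 : a - co E c' ∈ RE E (rat (K := K) Θ) := by
        rw [← h2, map_sub, UE_co, e1, sub_self]
      have e3 : co E c' ∈ Θ := by
        have := Θ.sub_mem ha (RE_rat_le Θ e2)
        rwa [sub_sub_cancel] at this
      have e4 : u c' = 0 := (h1 c').2 e3
      apply LinearMap.pi_ext'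
      intro e
      ext
      have e5 := congrFun e4 e
      rw [hc', map_sum, Finset.sum_apply, Finset.sum_eq_single e] at e5
      · rw [map_smul, hur, Pi.smul_apply, Pi.single_eq_same, smul_eq_mul, mul_one] at e5
        exact e5
      · intro e' _ he'
        rw [map_smul, hur, Pi.smul_apply, Pi.single_eq_of_ne (Ne.symm he'), smul_zero]
      · intro h; exact absurd (Finset.mem_univ _) h) (X.map ρK) inferInstance (by
      intro b hb
      obtain ⟨a, ha, rfl⟩ := Submodule.mem_map.1 hb
      refine ⟨Submodule.mem_map_of_mem (hX a ha).1, fun f => ?_⟩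
      change ρ a f ∈ L
      rw [hρ]
      refine L.sum_mem fun e _ => L.smul_mem _ ?_
      rw [UE_apply]
      refine L.sum_mem fun i _ => ?_
      rw [mul_comm, ← Algebra.smul_def]
      exact L.smul_mem _ ((hX a ha).2 i))
  have h4 := split ρ Θ
  have h5 := split ρK X
  have h6 : (Θ ⊓ LinearMap.ker ρ : Submodule E (Fin m → E)) = RE E (rat (K := K) Θ) := by
    ext a
    constructor
    · rintro ⟨-, h⟩
      exact (hρ0 a).1 (LinearMap.mem_ker.1 h)
    · intro h
      exact ⟨RE_rat_le Θ h, LinearMap.mem_ker.2 ((hρ0 a).2 h)⟩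
  have h7 : (X ⊓ LinearMap.ker ρK : Submodule K (Fin m → E)) =
      X ⊓ (RE E (rat (K := K) Θ)).restrictScalars K := by
    ext a
    constructor
    · rintro ⟨h, h'⟩
      exact ⟨h, (hρ0 a).1 (LinearMap.mem_ker.1 h')⟩
    · rintro ⟨h, h'⟩
      exact ⟨h, LinearMap.mem_ker.2 ((hρ0 a).2 h')⟩
  rw [h6, finrank_RE] at h4
  rw [h7] at h5
  have h8 : finrank E (Θ.map ρ) = finrank E Θ - finrank K (rat (K := K) Θ) := by omega
  rw [h8] at h3
  omega

end Pool.Agent.H443.VD
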