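import Pool.Agent.H443.VD.Rk

/-!
# The reduction step with a bound for the dimension of the tangent space
-/

set_option autoImplicit false

namespace Pool.Agent.H443.VD
open MvPolynomial Module
open Pool.Agent.W254.PA (Hyp)
open Pool.Agent.Y787.AS

variable {K E : Type} [Field K] [Field E] [Algebra K E] {m N q : ℕ}

/-- the first derivatives at `y` -/
noncomputable def Psi (y : Fin m → E) (S : Submodule E (MvPolynomial (Fin m) E)) :
    (Fin m → E) →ₗ[E] (S → E) where
  toFun c G := eval y (dirD c (G : MvPolynomial (Fin m) E))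
  map_add' c c' := by
    funext G
    rw [dirD_add_left, map_add]
    rfl
  map_smul' a c := by
    funext G
    rw [dirD_smul_left, map_mul, eval_C]
    rfl

theorem Psi_apply (y : Fin m → E) (S : Submodule E (MvPolynomial (Fin m) E)) (c : Fin m → E)
    (G : S) : Psi y S c G = eval y (dirD c (G : MvPolynomial (Fin m) E)) := rfl

/-- the second derivatives at `y` -/
noncomputable def Two (y : Fin m → E) (S : Submodule E (MvPolynomial (Fin m) E)) (c : Fin m → E) :
    (Fin m → E) →ₗ[E] (S → E) where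
  toFun u G := eval y (dirD u (dirD c (G : MvPolynomial (Fin m) E)))
  map_add' c c' := by
    funext G
    rw [dirD_add_left, map_add]
    rfl
  map_smul' a c := by
    funext G
    rw [dirD_smul_left, map_mul, eval_C]
    rfl

theorem Two_apply (y : Fin m → E) (S : Submodule E (MvPolynomial (Fin m) E)) (c u : Fin m → E)
    (G : S) : Two y S c u G = eval y (dirD u (dirD c (G : MvPolynomial (Fin m) E))) := rfl

/-- the tangent space -/
noncomputable def Tan (y : Fin m → E) (S : Submodule E (MvPolynomial (Fin m) E))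
    (R : Submodule K (Fin m → K)) : Submodule E (Fin m → E) :=
  RE E R ⊓ LinearMap.ker (Psi y S)

theorem mem_Tan {y : Fin m → E} {S : Submodule E (MvPolynomial (Fin m) E)}
    {R : Submodule K (Fin m → K)} {c : Fin m → E} :
    c ∈ Tan y S R ↔ c ∈ RE E R ∧ ∀ G ∈ S, eval y (dirD c G) = 0 := by
  constructor
  · rintro ⟨h1, h2⟩
    exact ⟨h1, fun G hG => congrFun (LinearMap.mem_ker.1 h2) ⟨G, hG⟩⟩
  · rintro ⟨h1, h2⟩
    exact ⟨h1, LinearMap.mem_ker.2 (funext fun G => h2 G G.2)⟩

/-- the derivative of the point -/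
noncomputable def Dy (l : Fin N → E) (b : Fin m → Fin N → K) (g : Fin q → K → K) :
    (Fin q → K) →ₗ[K] (Fin m → E) where
  toFun δ i := ∑ j, algebraMap K E (gd g δ (b i j)) * l j
  map_add' δ δ' := by
    funext i
    rw [Pi.add_apply, ← Finset.sum_add_distrib]
    refine Finset.sum_congr rfl fun j _ => ?_
    rw [gd_add, map_add, add_mul]
  map_smul' p δ := by
    funext i
    change ∑ j, algebraMap K E (gd g (p • δ) (b i j)) * l j =
      p • ∑ j, algebraMap K E (gd g δ (b i j)) * l j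
    rw [Finset.smul_sum]
    refine Finset.sum_congr rfl fun j _ => ?_
    rw [gd_smul, map_mul, mul_assoc, Algebra.smul_def]

theorem Dy_apply (l : Fin N → E) (b : Fin m → Fin N → K) (g : Fin q → K → K) (δ : Fin q → K)
    (i : Fin m) : Dy l b g δ i = ∑ j, algebraMap K E (gd g δ (b i j)) * l j := rfl

theorem Dy_eq (l : Fin N → E) (b : Fin m → Fin N → K) (g : Fin q → K → K) (δ : Fin q → K) :
    Dy l b g δ = ∑ j, l j • co E (fun i => gd g δ (b i j)) := by
  funext i
  rw [Dy_apply, Finset.sum_apply]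
  refine Finset.sum_congr rfl fun j _ => ?_
  rw [Pi.smul_apply, smul_eq_mul, mul_comm]
  rfl

/-- the columns are rational if the point moves in a rational space -/
theorem cols_of {l : Fin N → E} (hli : LinearIndependent K l) (b : Fin m → Fin N → K)
    (g : Fin q → K → K) (δ : Fin q → K) (R : Submodule K (Fin m → K))
    (h : Dy l b g δ ∈ RE E R) (j : Fin N) : (fun i => gd g δ (b i j)) ∈ R := by
  obtain ⟨v, r, u, -, -, h1, h2⟩ := exists_co (E := E) R
  rw [← h2, Dy_eq, map_sum] at h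
  rw [← h1]
  funext e
  have h3 := congrFun h e
  rw [Finset.sum_apply] at h3
  have h4 : ∑ j, u (fun i => gd g δ (b i j)) e • l j = 0 := by
    rw [Pi.zero_apply] at h3
    rw [← h3]
    refine Finset.sum_congr rfl fun j _ => ?_
    rw [map_smul, UE_co, Pi.smul_apply, smul_eq_mul, Algebra.smul_def, mul_comm]
    rfl
  exact (Fintype.linearIndependent_iff.1 hli) _ h4 j

section

variable (D : Fin q → Derivation ℤ E E) (g : Fin q → K → K)
  (hg : ∀ k a, D k (algebraMap K E a) = algebraMap K E (g k a)) (l : Fin N → E)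
  (hDl : ∀ k j, D k (l j) = 0) (b : Fin m → Fin N → K)

include hg hDl in
theorem Dd_y (δ : Fin q → K) (i : Fin m) :
    Dd D δ (∑ j, algebraMap K E (b i j) * l j) = Dy l b g δ i := by
  rw [map_sum, Dy_apply]
  refine Finset.sum_congr rfl fun j _ => ?_
  rw [(Dd D δ).leibniz, Dd_alg D g hg]
  have h3 : Dd D δ (l j) = 0 := by
    rw [Dd_apply]
    refine Finset.sum_eq_zero fun k _ => ?_
    rw [hDl, mul_zero]
  rw [h3, smul_zero, zero_add, smul_eq_mul, mul_comm]

include hg hDl in
/-- the first derivative of the equations -/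
theorem first (T : Submodule K (Fin q → K)) (S : Submodule E (MvPolynomial (Fin m) E))
    (hS : Adm D (fun i => ∑ j, algebraMap K E (b i j) * l j) T S) (δ : Fin q → K) (hδ : δ ∈ T)
    (G : MvPolynomial (Fin m) E) (hG : G ∈ S) :
    eval (fun i => ∑ j, algebraMap K E (b i j) * l j) (dirD (Dy l b g δ) G) = 0 := by
  have h1 := D_eval (Dd D δ) (fun i => ∑ j, algebraMap K E (b i j) * l j) G
  rw [hS.ev G hG, map_zero, hS.ev _ (hS.st δ hδ G hG), zero_add] at h1
  rw [eval_dirD, h1]
  refine Finset.sum_congr rfl fun i _ => ?_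
  rw [Dd_y D g hg l hDl b]

include hg hDl in
/-- the second derivative of the equations -/
theorem second (T : Submodule K (Fin q → K)) (S : Submodule E (MvPolynomial (Fin m) E))
    (hS : Adm D (fun i => ∑ j, algebraMap K E (b i j) * l j) T S) (δ : Fin q → K) (hδ : δ ∈ T)
    (c : Fin m → K)
    (hc : ∀ G ∈ S, eval (fun i => ∑ j, algebraMap K E (b i j) * l j) (dirD (co E c) G) = 0)
    (G : MvPolynomial (Fin m) E) (hG : G ∈ S) :
    eval (fun i => ∑ j, algebraMap K E (b i j) * l j) (dirD (co E (fun i => gd g δ (c i))) G) +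
    eval (fun i => ∑ j, algebraMap K E (b i j) * l j) (dirD (Dy l b g δ) (dirD (co E c) G)) = 0 := by
  have h1 := D_eval (Dd D δ) (fun i => ∑ j, algebraMap K E (b i j) * l j) (dirD (co E c) G)
  rw [hc G hG, map_zero, coefD_dirD, map_add, hc _ (hS.st δ hδ G hG), add_zero] at h1
  have h2 : (fun i => Dd D δ (co E c i)) = co E (fun i => gd g δ (c i)) := by
    funext i
    exact Dd_alg D g hg δ (c i)
  rw [h2] at h1
  rw [eval_dirD (Dy l b g δ), h1]
  congr 1
  refine Finset.sum_congr rfl fun i _ => ?_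
  rw [Dd_y D g hg l hDl b]

/-- the derivative of a rational vector -/
def gdV (g : Fin q → K → K) (c : Fin m → K) : (Fin q → K) →ₗ[K] (Fin m → K) where
  toFun δ i := gd g δ (c i)
  map_add' δ δ' := by
    funext i
    exact gd_add g δ δ' _
  map_smul' p δ := by
    funext i
    exact gd_smul g p δ _

theorem gdV_apply (g : Fin q → K → K) (c : Fin m → K) (δ : Fin q → K) :
    gdV g c δ = fun i => gd g δ (c i) := rfl

include hg hDl in
/-- **Moving one rational vector.** -/
theorem move_one (T : Submodule K (Fin q → K)) (R : Submodule K (Fin m → K))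
    (pres : ∀ δ ∈ T, ∀ c ∈ R, (fun i => gd g δ (c i)) ∈ R)
    (S : Submodule E (MvPolynomial (Fin m) E))
    (hS : Adm D (fun i => ∑ j, algebraMap K E (b i j) * l j) T S)
    (Θ : Submodule E (Fin m → E)) (hΘ : Θ = Tan (fun i => ∑ j, algebraMap K E (b i j) * l j) S R)
    (T2 : Submodule K (Fin q → K)) (hT2 : T2 ≤ T) (U : Submodule E (Fin m → E))
    (hU : ∀ δ ∈ T2, Dy l b g δ ∈ U) (c : Fin m → K) (hc : c ∈ rat (K := K) Θ) :
    ∃ (T3 : Submodule K (Fin q → K)) (U' : Submodule E (Fin m → E)), T3 ≤ T2 ∧ U' ≤ U ∧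
      (∀ δ ∈ T3, Dy l b g δ ∈ U') ∧ (∀ δ ∈ T3, (fun i => gd g δ (c i)) ∈ rat (K := K) Θ) ∧
      (∀ u ∈ U, (∀ G ∈ S, eval (fun i => ∑ j, algebraMap K E (b i j) * l j)
        (dirD u (dirD (co E c) G)) = 0) → u ∈ U') ∧
      finrank K T2 ≤ finrank K T3 + (finrank E Θ - finrank K (rat (K := K) Θ)) +
        (finrank E U - finrank E U') := by
  classical
  set y : Fin m → E := fun i => ∑ j, algebraMap K E (b i j) * l j with hy
  have hfirst : ∀ c' ∈ rat (K := K) Θ, ∀ G ∈ S, eval y (dirD (co E c') G) = 0 := by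
    intro c' hc' G hG
    rw [mem_rat, hΘ, mem_Tan] at hc'
    exact hc'.2 G hG
  have hratR : ∀ c' ∈ rat (K := K) Θ, c' ∈ R := by
    intro c' hc'
    rw [mem_rat, hΘ, mem_Tan] at hc'
    exact mem_of_RE hc'.1
  have hsec : ∀ δ ∈ T2, ∀ G ∈ S, eval y (dirD (co E (fun i => gd g δ (c i))) G) +
      eval y (dirD (Dy l b g δ) (dirD (co E c) G)) = 0 := fun δ hδ G hG =>
    second D g hg l hDl b T S hS δ (hT2 hδ) c (hfirst c hc) G hG
  obtain ⟨v, r, u, hv, hur, hu1, hu2⟩ := exists_co (E := E) (rat (K := K) Θ)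
  let T3 : Submodule K (Fin q → K) := T2 ⊓ LinearMap.ker (u ∘ₗ gdV g c)
  let U' : Submodule E (Fin m → E) := U ⊓ LinearMap.ker (Two y S (co E c))
  have hT3 : ∀ δ ∈ T3, (fun i => gd g δ (c i)) ∈ rat (K := K) Θ := by
    rintro δ ⟨-, hδ⟩
    rw [← hu1]
    exact LinearMap.mem_ker.1 hδ
  refine ⟨T3, U', inf_le_left, inf_le_left, ?_, hT3, ?_, ?_⟩
  · intro δ hδ
    refine ⟨hU δ hδ.1, LinearMap.mem_ker.2 (funext fun G => ?_)⟩
    have h1 := hsec δ hδ.1 G G.2
    rw [hfirst _ (hT3 δ hδ) G G.2, zero_add] at h1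
    exact h1
  · intro w hw hG
    exact ⟨hw, LinearMap.mem_ker.2 (funext fun G => hG G G.2)⟩
  · have h1 := split (u ∘ₗ gdV g c) T2
    change finrank K T2 = finrank K T3 + _ at h1
    have h2 := split (Two y S (co E c)) U
    change finrank E U = finrank E U' + _ at h2
    set J := U.map (Two y S (co E c)) with hJ
    let ΘJ : Submodule E (Fin m → E) := RE E R ⊓ J.comap (Psi y S)
    have h3 := split (Psi y S) ΘJ
    have h4 : finrank E (ΘJ ⊓ LinearMap.ker (Psi y S) : Submodule E (Fin m → E)) ≤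
        finrank E Θ := by
      refine Submodule.finrank_mono ?_
      rintro a ⟨ha1, ha2⟩
      rw [hΘ]
      exact ⟨ha1.1, ha2⟩
    have h5 : finrank E (ΘJ.map (Psi y S)) ≤ finrank E J := by
      have : ΘJ.map (Psi y S) ≤ J := by
        rintro _ ⟨a, ha, rfl⟩
        exact ha.2
      have hJf : FiniteDimensional E J := by
        rw [hJ]
        infer_instance
      exact Submodule.finrank_mono this
    have h6 : finrank K (rat (K := K) ΘJ) ≤ finrank E ΘJ := finrank_rat_le ΘJ
    have h7 := split u (rat (K := K) ΘJ)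
    have h8 : finrank K (rat (K := K) Θ) ≤
        finrank K (rat (K := K) ΘJ ⊓ LinearMap.ker u : Submodule K (Fin m → K)) := by
      refine Submodule.finrank_mono ?_
      intro c' hc'
      refine ⟨⟨co_mem_RE (hratR c' hc'), ?_⟩, LinearMap.mem_ker.2 ((hu1 c').2 hc')⟩
      have : Psi y S (co E c') = 0 := funext fun G => hfirst c' hc' G G.2
      change Psi y S (co E c') ∈ J
      rw [this]
      exact J.zero_mem
    have h9 : finrank K (T2.map (u ∘ₗ gdV g c)) ≤ finrank K ((rat (K := K) ΘJ).map u) := by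
      refine Submodule.finrank_mono ?_
      rintro _ ⟨δ, hδ, rfl⟩
      refine ⟨gdV g c δ, ⟨co_mem_RE (pres δ (hT2 hδ) c (hratR c hc)), ?_⟩, rfl⟩
      change Psi y S (co E (gdV g c δ)) ∈ J
      have : Psi y S (co E (gdV g c δ)) = - Two y S (co E c) (Dy l b g δ) := by
        funext G
        exact eq_neg_of_add_eq_zero_left (hsec δ hδ G G.2)
      rw [this]
      exact J.neg_mem (Submodule.mem_map_of_mem (hU δ hδ))
    omega

include hg hDl in
/-- **The reduction step.** -/
theorem step {L : Submodule K E} (hL : Hyp L) (hl : ∀ j, l j ∈ L) (hli : LinearIndependent K l)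
    (T : Submodule K (Fin q → K)) (R : Submodule K (Fin m → K))
    (pres : ∀ δ ∈ T, ∀ c ∈ R, (fun i => gd g δ (c i)) ∈ R)
    (cols : ∀ δ ∈ T, ∀ j, (fun i => gd g δ (b i j)) ∈ R)
    (S : Submodule E (MvPolynomial (Fin m) E))
    (hS : Adm D (fun i => ∑ j, algebraMap K E (b i j) * l j) T S)
    (Θ : Submodule E (Fin m → E)) (hΘ : Θ = Tan (fun i => ∑ j, algebraMap K E (b i j) * l j) S R) :
    ∃ T' : Submodule K (Fin q → K), T' ≤ T ∧
      (∀ δ ∈ T', ∀ c ∈ rat (K := K) Θ, (fun i => gd g δ (c i)) ∈ rat (K := K) Θ) ∧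
      (∀ δ ∈ T', ∀ j, (fun i => gd g δ (b i j)) ∈ rat (K := K) Θ) ∧
      ∀ S' : Submodule E (MvPolynomial (Fin m) E),
        (∀ G ∈ S, ∀ c ∈ rat (K := K) Θ, dirD (co E c) G ∈ S') →
        finrank K T ≤ finrank K T' +
          (finrank E Θ - finrank K (rat (K := K) Θ)) * (finrank E Θ + 1) +
          (finrank K (rat (K := K) Θ) -
            finrank E (Tan (fun i => ∑ j, algebraMap K E (b i j) * l j) S' (rat (K := K) Θ))) := by
  classical
  set y : Fin m → E := fun i => ∑ j, algebraMap K E (b i j) * l j with hy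
  have hratle := finrank_rat_le (K := K) Θ
  -- the first part
  have hDyΘ : ∀ δ ∈ T, Dy l b g δ ∈ Θ := by
    intro δ hδ
    rw [hΘ, mem_Tan]
    refine ⟨?_, fun G hG => first D g hg l hDl b T S hS δ hδ G hG⟩
    rw [Dy_eq]
    exact Submodule.sum_mem _ fun j _ => Submodule.smul_mem _ _ (co_mem_RE (cols δ hδ j))
  have h1 := lst hL Θ (T.map (Dy l b g)) inferInstance (by
    intro a ha
    obtain ⟨δ, hδ, rfl⟩ := Submodule.mem_map.1 ha
    refine ⟨hDyΘ δ hδ, fun i => ?_⟩
    rw [Dy_apply]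
    refine L.sum_mem fun j _ => ?_
    rw [← Algebra.smul_def]
    exact L.smul_mem _ (hl j))
  let T1 : Submodule K (Fin q → K) :=
    T ⊓ ((RE E (rat (K := K) Θ)).restrictScalars K).comap (Dy l b g)
  have h2 := split (Dy l b g) T
  have h3 := split (Dy l b g) T1
  have h4 : (T1 ⊓ LinearMap.ker (Dy l b g) : Submodule K (Fin q → K)) =
      T ⊓ LinearMap.ker (Dy l b g) := by
    ext δ
    constructor
    · rintro ⟨h, h'⟩
      exact ⟨h.1, h'⟩
    · rintro ⟨h, h'⟩
      refine ⟨⟨h, ?_⟩, h'⟩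
      change Dy l b g δ ∈ RE E (rat (K := K) Θ)
      rw [LinearMap.mem_ker.1 h']
      exact Submodule.zero_mem _
  have h5 : T1.map (Dy l b g) =
      T.map (Dy l b g) ⊓ (RE E (rat (K := K) Θ)).restrictScalars K := by
    ext a
    constructor
    · rintro ⟨δ, hδ, rfl⟩
      exact ⟨⟨δ, hδ.1, rfl⟩, hδ.2⟩
    · rintro ⟨⟨δ, hδ, rfl⟩, h⟩
      exact ⟨δ, ⟨hδ, h⟩, rfl⟩
  rw [h4, h5] at h3
  -- the second part
  have hbas : Module.Free K (rat (K := K) Θ) := Module.Free.of_divisionRing K _
  set r' := finrank K (rat (K := K) Θ) with hr'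
  let cB : Basis (Fin r') K (rat (K := K) Θ) := finBasis K (rat (K := K) Θ)
  have hind : ∀ n, n ≤ r' → ∃ (T2 : Submodule K (Fin q → K)) (U : Submodule E (Fin m → E)),
      T2 ≤ T1 ∧ U ≤ RE E (rat (K := K) Θ) ∧ (∀ δ ∈ T2, Dy l b g δ ∈ U) ∧
      (∀ δ ∈ T2, ∀ β : Fin r', (β : ℕ) < n →
        (fun i => gd g δ ((cB β : Fin m → K) i)) ∈ rat (K := K) Θ) ∧
      (∀ u ∈ RE E (rat (K := K) Θ), (∀ β : Fin r', (β : ℕ) < n → ∀ G ∈ S,
        eval y (dirD u (dirD (co E (cB β : Fin m → K)) G)) = 0) → u ∈ U) ∧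
      finrank K T1 ≤ finrank K T2 + n * (finrank E Θ - r') + (r' - finrank E U) := by
    intro n
    induction n with
    | zero =>
      intro _
      refine ⟨T1, RE E (rat (K := K) Θ), le_refl _, le_refl _, fun δ hδ => hδ.2,
        fun _ _ _ h => absurd h (Nat.not_lt_zero _), fun _ h _ => h, ?_⟩
      omega
    | succ n ih =>
      intro hn
      obtain ⟨T2, U, a1, a2, a3, a4, a5, a6⟩ := ih (by omega)
      obtain ⟨T3, U', b1, b2, b3, b4, b5, b6⟩ := move_one D g hg l hDl b T R pres S hS Θ hΘ T2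
        (a1.trans inf_le_left) U a3 (cB ⟨n, hn⟩) (cB ⟨n, hn⟩).2
      refine ⟨T3, U', b1.trans a1, b2.trans a2, b3, ?_, ?_, ?_⟩
      · intro δ hδ β hβ
        rcases Nat.lt_succ_iff_lt_or_eq.1 hβ with h | h
        · exact a4 δ (b1 hδ) β h
        · have : β = ⟨n, hn⟩ := Fin.ext h
          rw [this]
          exact b4 δ hδ
      · intro u hu hβ
        refine b5 u (a5 u hu fun β h G hG => hβ β (by omega) G hG) fun G hG => ?_
        exact hβ ⟨n, hn⟩ (Nat.lt_succ_self n) G hG
      · have c1 := Submodule.finrank_mono b2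
        have c2 := Submodule.finrank_mono a2
        rw [finrank_RE] at c2
        rw [← hr'] at b6 c2
        have c3 : (n + 1) * (finrank E Θ - r') = n * (finrank E Θ - r') + (finrank E Θ - r') := by
          ring
        omega
  obtain ⟨T', U, a1, a2, a3, a4, a5, a6⟩ := hind r' (le_refl _)
  refine ⟨T', a1.trans inf_le_left, ?_, ?_, ?_⟩
  · intro δ hδ c hc
    obtain ⟨s, hs⟩ : ∃ s : Fin r' → K, ∀ i, c i = ∑ β, s β * (cB β : Fin m → K) i := by
      refine ⟨fun β => cB.repr ⟨c, hc⟩ β, fun i => ?_⟩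
      have h1 := cB.sum_repr ⟨c, hc⟩
      have h2 := congrArg (fun x : rat (K := K) Θ => (x : Fin m → K) i) h1
      simp only [Submodule.coe_sum, Submodule.coe_smul, Finset.sum_apply, Pi.smul_apply,
        smul_eq_mul] at h2
      exact h2.symm
    have h3 : (fun i => gd g δ (c i)) = ∑ β, (gd g δ (s β) • (cB β : Fin m → K) +
        s β • fun i => gd g δ ((cB β : Fin m → K) i)) := by
      funext i
      rw [hs i, gd_sum_mul D g hg, Finset.sum_apply]
      refine Finset.sum_congr rfl fun β _ => ?_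
      rfl
    rw [h3]
    refine Submodule.sum_mem _ fun β _ => Submodule.add_mem _ ?_ ?_
    · exact Submodule.smul_mem _ _ (cB β).2
    · exact Submodule.smul_mem _ _ (a4 δ hδ β β.2)
  · intro δ hδ j
    exact cols_of hli b g δ _ (a2 (a3 δ hδ)) j
  · intro S' hS'
    have e1 : finrank E (Tan y S' (rat (K := K) Θ)) ≤ finrank E U := by
      refine Submodule.finrank_mono ?_
      intro u hu
      rw [mem_Tan] at hu
      exact a5 u hu.1 fun β _ G hG => hu.2 _ (hS' G hG _ (cB β).2)
    have e2 : finrank K T ≤ finrank K T1 + (finrank E Θ - r') * (finrank E Θ - r' + 1) := by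
      change finrank K T1 = _ at h3
      omega
    have e3 : (finrank E Θ - r') * (finrank E Θ + 1) =
        (finrank E Θ - r') * (finrank E Θ - r' + 1) + r' * (finrank E Θ - r') := by
      obtain ⟨t, ht⟩ : ∃ t, finrank E Θ = r' + t := ⟨_, (Nat.add_sub_cancel' hratle).symm⟩
      rw [ht, Nat.add_sub_cancel_left]
      ring
    rw [e3]
    omega
end

end Pool.Agent.H443.VD
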